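import Pool.Agent.Lib.MP_c8748f_nt.Base

/-!
# Friends of 10 (MP_c8748f_nt): the largest prime factor. Functions for the kernel and their soundness
-/

set_option autoImplicit false

namespace Pool.Agent.Lib.MP_c8748f_nt.LP

/-- call by value -/
def fc {α : Type} (n : ℕ) (k : ℕ → α) : α := Nat.rec (k 0) (fun m _ => k (Nat.succ m)) n

theorem fc_eq {α : Type} (n : ℕ) (k : ℕ → α) : fc n k = k n := by
  cases n <;> rfl

/-- the bound -/
def BB : ℕ := 1000000

/-! ### products -/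

/-- the factor `2 q j + 1` if it is at most `BB` -/
def leaf (q j : ℕ) : ℕ :=
  cond (Nat.ble BB (Nat.mul (Nat.mul 2 q) j)) 1 (Nat.succ (Nat.mul (Nat.mul 2 q) j))

/-- balanced product -/
def pr (q d : ℕ) : ℕ → ℕ :=
  Nat.rec (fun a => leaf q a)
    (fun _ ih a => fc (Nat.mul 2 a) (fun x => Nat.mul (ih x) (ih (Nat.succ x)))) d

theorem pr_succ (q d a : ℕ) : pr q (d + 1) a = pr q d (2 * a) * pr q d (2 * a + 1) := by
  show fc (Nat.mul 2 a) (fun x => Nat.mul (pr q d x) (pr q d (Nat.succ x))) = _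
  rw [fc_eq]
  rfl

theorem leaf_dvd (q : ℕ) : ∀ d a j : ℕ, j / 2 ^ d = a → leaf q j ∣ pr q d a
  | 0, a, j, h => by
    rw [pow_zero, Nat.div_one] at h
    rw [h]
    exact dvd_refl _
  | d + 1, a, j, h => by
    rw [pr_succ]
    have h1 : j / 2 ^ d / 2 = a := by rw [Nat.div_div_eq_div_mul, ← pow_succ, h]
    rcases Nat.mod_two_eq_zero_or_one (j / 2 ^ d) with h2 | h2
    · exact (leaf_dvd q d (2 * a) j (by omega)).mul_right _
    · exact (leaf_dvd q d (2 * a + 1) j (by omega)).mul_left _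

theorem leaf_eq {q j : ℕ} (h : 2 * q * j < BB) : leaf q j = 2 * q * j + 1 := by
  unfold leaf
  have h1 : Nat.ble BB (Nat.mul (Nat.mul 2 q) j) = false := by
    rw [Bool.eq_false_iff]
    intro h2
    have h3 := Nat.le_of_ble_eq_true h2
    exact absurd h (not_lt.2 h3)
  rw [h1]
  rfl

/-- repeated squaring: `x ^ (2 ^ s)` is not `0` modulo `N` -/
def sqs (N s : ℕ) : ℕ → Bool :=
  Nat.rec (fun x => Bool.not (Nat.beq x 0))
    (fun _ ih x => fc (Nat.mod (Nat.mul x x) N) ih) s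

theorem sqs_sound (N : ℕ) : ∀ s x : ℕ, sqs N s x = true → ¬ N ∣ x → ¬ N ∣ x ^ 2 ^ s
  | 0, x, _, h => by simpa using h
  | s + 1, x, h, _ => by
    have h1 : sqs N s (x * x % N) = true := by
      have h2 : sqs N (s + 1) x = fc (Nat.mod (Nat.mul x x) N) (sqs N s) := rfl
      rw [h2, fc_eq] at h
      exact h
    have h3 : ¬ N ∣ x * x % N := by
      intro h4
      have h5 : x * x % N = 0 := by
        rcases Nat.eq_zero_or_pos N with h0 | h0
        · rw [h0] at h4 ⊢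
          exact Nat.eq_zero_of_zero_dvd h4
        · exact Nat.eq_zero_of_dvd_of_lt h4 (Nat.mod_lt _ h0)
      rw [h5] at h1
      have h6 : ∀ s, sqs N s 0 = false := by
        intro s
        induction s with
        | zero => rfl
        | succ s ih =>
          have h2 : sqs N (s + 1) 0 = fc (Nat.mod (Nat.mul 0 0) N) (sqs N s) := rfl
          rw [h2, fc_eq]
          have h7 : Nat.mod (Nat.mul 0 0) N = 0 := Nat.zero_mod N
          rw [h7]
          exact ih
      rw [h6 s] at h1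
      exact Bool.false_ne_true h1
    have h8 := sqs_sound N s _ h1 h3
    intro h9
    apply h8
    have h10 : x ^ 2 ^ (s + 1) = (x * x) ^ 2 ^ s := by
      rw [pow_succ, mul_comm (2 ^ s) 2, pow_mul, sq]
    rw [h10] at h9
    rw [Nat.dvd_iff_mod_eq_zero, Nat.pow_mod, Nat.mod_mod, ← Nat.pow_mod,
      ← Nat.dvd_iff_mod_eq_zero]
    exact h9

theorem sqs_pos {N x : ℕ} (s : ℕ) (h : sqs N s (x % N) = true) : ¬ N ∣ x ^ 2 ^ s := by
  have h3 : ¬ N ∣ x % N := by
    intro h4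
    have h5 : x % N = 0 := by
      rcases Nat.eq_zero_or_pos N with h0 | h0
      · rw [h0] at h4 ⊢
        exact Nat.eq_zero_of_zero_dvd h4
      · exact Nat.eq_zero_of_dvd_of_lt h4 (Nat.mod_lt _ h0)
    rw [h5] at h
    have h6 : ∀ s, sqs N s 0 = false := by
      intro s
      induction s with
      | zero => rfl
      | succ s ih =>
        have h2 : sqs N (s + 1) 0 = fc (Nat.mod (Nat.mul 0 0) N) (sqs N s) := rfl
        rw [h2, fc_eq]
        have h7 : Nat.mod (Nat.mul 0 0) N = 0 := Nat.zero_mod N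
        rw [h7]
        exact ih
    rw [h6 s] at h
    exact Bool.false_ne_true h
  have h8 := sqs_sound N s _ h h3
  intro h9
  apply h8
  rw [Nat.dvd_iff_mod_eq_zero, Nat.pow_mod, Nat.mod_mod, ← Nat.pow_mod,
    ← Nat.dvd_iff_mod_eq_zero]
  exact h9

/-- the test for one prime `p` -/
def tst (q p P : ℕ) : Bool :=
  fc (Nat.div (Nat.pred (Nat.pow p q)) (Nat.pred p)) (fun N => fc (Nat.mod P N) (sqs N 16))

/-- the test for a list of primes `p` -/
def tsl (q P : ℕ) (L : List ℕ) : Bool :=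
  List.rec true (fun p _ ih => Bool.and (tst q p P) ih) L

theorem tsl_mem (q P : ℕ) : ∀ (L : List ℕ), tsl q P L = true → ∀ p ∈ L, tst q p P = true
  | [], _, p, hp => absurd hp (List.not_mem_nil)
  | a :: L, h, p, hp => by
    have h1 : (tst q a P && tsl q P L) = true := h
    rw [Bool.and_eq_true] at h1
    rcases List.mem_cons.1 hp with h2 | h2
    · rw [h2]
      exact h1.1
    · exact tsl_mem q P L h1.2 p h2

/-- the test for one `q` -/
def chq (q : ℕ) (L : List ℕ) : Bool :=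
  fc (Nat.mul q (pr q (Nat.succ (Nat.log2 (Nat.div BB (Nat.mul 2 q)))) 0)) (fun P => tsl q P L)

/-- the test for a list of `q` -/
def chl (L Q : List ℕ) : Bool :=
  List.rec true (fun q _ ih => Bool.and (chq q L) ih) Q

theorem chl_mem (L : List ℕ) : ∀ (Q : List ℕ), chl L Q = true → ∀ q ∈ Q, chq q L = true
  | [], _, q, hq => absurd hq (List.not_mem_nil)
  | a :: Q, h, q, hq => by
    have h1 : (chq a L && chl L Q) = true := h
    rw [Bool.and_eq_true] at h1
    rcases List.mem_cons.1 hq with h2 | h2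
    · rw [h2]
      exact h1.1
    · exact chl_mem L Q h1.2 q h2

theorem chq_sound {q : ℕ} (hq0 : 0 < q) {L : List ℕ} (h : chq q L = true) {p : ℕ} (hp : p ∈ L) :
    ∃ P : ℕ, (∀ j, 2 * q * j < BB → 2 * q * j + 1 ∣ P) ∧ q ∣ P ∧ ¬ ph q p ∣ P ^ 2 ^ 16 := by
  unfold chq at h
  rw [fc_eq] at h
  have h1 := tsl_mem q _ L h p hp
  unfold tst at h1
  rw [fc_eq, fc_eq] at h1
  refine ⟨q * pr q (Nat.succ (Nat.log2 (Nat.div BB (Nat.mul 2 q)))) 0, ?_, dvd_mul_right _ _,
    sqs_pos 16 h1⟩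
  intro j hj
  rw [← leaf_eq hj]
  refine (leaf_dvd q _ 0 j ?_).mul_left _
  rw [Nat.div_eq_zero_iff]
  right
  have h2 : j ≤ BB / (2 * q) := by
    rw [Nat.le_div_iff_mul_le (by omega)]
    calc j * (2 * q) = 2 * q * j := by ring
      _ ≤ BB := hj.le
  exact lt_of_le_of_lt h2 Nat.lt_log2_self

/-! ### Fermat quotients -/

/-- `p ^ e` modulo `M` -/
def pw (p e M : ℕ) : ℕ :=
  Nat.mod (Nat.mul (Nat.pow (Nat.mod (Nat.mul (Nat.pow (Nat.mod (Nat.pow p (Nat.div e 10000)) M) 100)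
    (Nat.pow p (Nat.mod (Nat.div e 100) 100))) M) 100) (Nat.pow p (Nat.mod e 100))) M

theorem pw_eq (p e M : ℕ) : pw p e M = p ^ e % M := by
  show ((((p ^ (e / 10000)) % M) ^ 100 * p ^ (e / 100 % 100)) % M) ^ 100 * p ^ (e % 100) % M = _
  have h1 : e = ((e / 10000) * 100 + e / 100 % 100) * 100 + e % 100 := by omega
  have h2 : p ^ e = ((p ^ (e / 10000)) ^ 100 * p ^ (e / 100 % 100)) ^ 100 * p ^ (e % 100) := by
    conv_lhs => rw [h1]
    rw [pow_add, pow_mul, pow_add, pow_mul]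
  rw [h2]
  conv_lhs => rw [Nat.mul_mod, Nat.pow_mod, Nat.mod_mod, ← Nat.pow_mod, ← Nat.mul_mod]
  have h3 : (((p ^ (e / 10000)) % M) ^ 100 * p ^ (e / 100 % 100)) % M =
      ((p ^ (e / 10000)) ^ 100 * p ^ (e / 100 % 100)) % M := by
    rw [Nat.mul_mod, Nat.pow_mod, Nat.mod_mod, ← Nat.pow_mod, ← Nat.mul_mod]
  rw [Nat.mul_mod, Nat.pow_mod, h3, ← Nat.pow_mod, ← Nat.mul_mod]

/-- `(b + c)²` -/
def s2 (b c : ℕ) : ℕ := Nat.mul (Nat.add b c) (Nat.add b c)

/-- the product of the eight squares -/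
def Mb (b : ℕ) : ℕ :=
  Nat.mul (Nat.mul (Nat.mul (s2 b 1) (s2 b 7)) (Nat.mul (s2 b 11) (s2 b 13)))
    (Nat.mul (Nat.mul (s2 b 17) (s2 b 19)) (Nat.mul (s2 b 23) (s2 b 29)))

/-- membership -/
def mem (r : ℕ) (E : List ℕ) : Bool := List.rec false (fun x _ ih => Bool.or (Nat.beq r x) ih) E

theorem mem_sound (r : ℕ) : ∀ E : List ℕ, mem r E = true → r ∈ E
  | [], h => absurd h Bool.false_ne_true
  | x :: E, h => by
    have h1 : (Nat.beq r x || mem r E) = true := h
    rw [Bool.or_eq_true] at h1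
    rcases h1 with h2 | h2
    · rw [Nat.eq_of_beq_eq_true h2]
      exact List.mem_cons_self
    · exact List.mem_cons_of_mem _ (mem_sound r E h2)

/-- the test for `r = b + d + 1` -/
def okc (p X b d : ℕ) (E : List ℕ) : Bool :=
  Bool.or (Bool.not (Nat.beq (Nat.mod (Nat.mul X (Nat.pow p d)) (s2 b (Nat.succ d))) 1))
    (mem (Nat.add b (Nat.succ d)) E)

/-- the test for the block `30 k + c` -/
def blk (p : ℕ) (E : List ℕ) (k : ℕ) : Bool :=
  fc (Nat.mul 30 k) (fun b => fc (pw p b (Mb b)) (fun X =>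
    Bool.and (Bool.and (Bool.and (okc p X b 0 E) (okc p X b 6 E)) (Bool.and (okc p X b 10 E) (okc p X b 12 E)))
      (Bool.and (Bool.and (okc p X b 16 E) (okc p X b 18 E)) (Bool.and (okc p X b 22 E) (okc p X b 28 E)))))

/-- the blocks `140 ≤ k ≤ 33333` -/
def lf (p : ℕ) (E : List ℕ) (k : ℕ) : Bool :=
  cond (Nat.ble 33334 k) true (cond (Nat.ble k 139) true (blk p E k))

/-- a property of all `k` in a dyadic interval -/
def al (f : ℕ → Bool) (d : ℕ) : ℕ → Bool :=
  Nat.rec f (fun _ ih a => fc (Nat.mul 2 a) (fun x => Bool.and (ih x) (ih (Nat.succ x)))) d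

theorem al_sound (f : ℕ → Bool) : ∀ d a : ℕ, al f d a = true → ∀ j, j / 2 ^ d = a → f j = true
  | 0, a, h, j, hj => by
    rw [pow_zero, Nat.div_one] at hj
    rw [hj]
    exact h
  | d + 1, a, h, j, hj => by
    have h0 : fc (Nat.mul 2 a) (fun x => Bool.and (al f d x) (al f d (Nat.succ x))) = true := h
    rw [fc_eq] at h0
    have h1 : (al f d (2 * a) && al f d (2 * a + 1)) = true := h0
    rw [Bool.and_eq_true] at h1
    have h2 : j / 2 ^ d / 2 = a := by rw [Nat.div_div_eq_div_mul, ← pow_succ, hj]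
    rcases Nat.mod_two_eq_zero_or_one (j / 2 ^ d) with h3 | h3
    · exact al_sound f d _ h1.1 j (by omega)
    · exact al_sound f d _ h1.2 j (by omega)

theorem okc_sound {p X b d : ℕ} {E : List ℕ} (h : okc p X b d E = true)
    (hX : X % (b + d + 1) ^ 2 = p ^ b % (b + d + 1) ^ 2) (hE : b + d + 1 ∉ E) :
    p ^ (b + d) % (b + d + 1) ^ 2 ≠ 1 := by
  intro h1
  have h2 : (!(Nat.beq (X * p ^ d % ((b + (d + 1)) * (b + (d + 1)))) 1) ||
    mem (b + (d + 1)) E) = true := h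
  rw [Bool.or_eq_true] at h2
  rcases h2 with h3 | h3
  · rw [Bool.not_eq_true', Bool.eq_false_iff] at h3
    apply h3
    have h4 : X * p ^ d % ((b + (d + 1)) * (b + (d + 1))) = 1 := by
      rw [← sq, ← add_assoc, Nat.mul_mod, hX, ← Nat.mul_mod, ← pow_add, h1]
    rw [h4]
    rfl
  · exact hE (mem_sound _ _ h3)

theorem blk_sound {p k : ℕ} {E : List ℕ} (h : blk p E k = true) {c : ℕ}
    (hc : c = 0 ∨ c = 6 ∨ c = 10 ∨ c = 12 ∨ c = 16 ∨ c = 18 ∨ c = 22 ∨ c = 28)
    (hE : 30 * k + c + 1 ∉ E) : p ^ (30 * k + c) % (30 * k + c + 1) ^ 2 ≠ 1 := by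
  unfold blk at h
  rw [fc_eq, fc_eq] at h
  simp only [Bool.and_eq_true] at h
  obtain ⟨⟨⟨h0, h1⟩, h2, h3⟩, ⟨h4, h5⟩, h6, h7⟩ := h
  have hM : ∀ c, (30 * k + c + 1) ^ 2 = s2 (30 * k) (c + 1) := fun c => by
    rw [sq]
    rfl
  have hX : ∀ c, s2 (30 * k) (c + 1) ∣ Mb (30 * k) →
      pw p (30 * k) (Mb (30 * k)) % (30 * k + c + 1) ^ 2 = p ^ (30 * k) % (30 * k + c + 1) ^ 2 := by
    intro c hc
    rw [pw_eq, Nat.mod_mod_of_dvd _ (by rw [hM]; exact hc)]
  have hMb : Mb (30 * k) = ((s2 (30 * k) 1 * s2 (30 * k) 7) * (s2 (30 * k) 11 * s2 (30 * k) 13)) *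
    ((s2 (30 * k) 17 * s2 (30 * k) 19) * (s2 (30 * k) 23 * s2 (30 * k) 29)) := rfl
  rcases hc with rfl | rfl | rfl | rfl | rfl | rfl | rfl | rfl
  · exact okc_sound h0 (hX 0 (by rw [hMb]; exact (((dvd_mul_right _ _).mul_right _).mul_right _))) hE
  · exact okc_sound h1 (hX 6 (by rw [hMb]; exact (((dvd_mul_left _ _).mul_right _).mul_right _))) hE
  · exact okc_sound h2 (hX 10 (by rw [hMb]; exact (((dvd_mul_right _ _).mul_left _).mul_right _))) hE
  · exact okc_sound h3 (hX 12 (by rw [hMb]; exact (((dvd_mul_left _ _).mul_left _).mul_right _))) hE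
  · exact okc_sound h4 (hX 16 (by rw [hMb]; exact (((dvd_mul_right _ _).mul_right _).mul_left _))) hE
  · exact okc_sound h5 (hX 18 (by rw [hMb]; exact (((dvd_mul_left _ _).mul_right _).mul_left _))) hE
  · exact okc_sound h6 (hX 22 (by rw [hMb]; exact (((dvd_mul_right _ _).mul_left _).mul_left _))) hE
  · exact okc_sound h7 (hX 28 (by rw [hMb]; exact (((dvd_mul_left _ _).mul_left _).mul_left _))) hE

/-- the whole test -/
def big (p : ℕ) (E : List ℕ) (d a : ℕ) : Bool := al (lf p E) d a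

theorem lf_sound {p : ℕ} {E : List ℕ} (hall : ∀ k, k < 65536 → lf p E k = true) {r : ℕ}
    (hr : r.Prime) (h1 : 4201 ≤ r) (h2 : r ≤ BB) (hE : r ∉ E) : p ^ (r - 1) % r ^ 2 ≠ 1 := by
  have hBB : BB = 1000000 := rfl
  rw [hBB] at h2
  have n2 : r % 2 ≠ 0 := fun h => by
    have := (Nat.prime_dvd_prime_iff_eq Nat.prime_two hr).1 (Nat.dvd_of_mod_eq_zero h)
    omega
  have n3 : r % 3 ≠ 0 := fun h => by
    have := (Nat.prime_dvd_prime_iff_eq Nat.prime_three hr).1 (Nat.dvd_of_mod_eq_zero h)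
    omega
  have n5 : r % 5 ≠ 0 := fun h => by
    have := (Nat.prime_dvd_prime_iff_eq Nat.prime_five hr).1 (Nat.dvd_of_mod_eq_zero h)
    omega
  set k := r / 30 with hk
  have hk1 : 140 ≤ k := by omega
  have hk2 : k ≤ 33333 := by omega
  have hc : r % 30 = 1 ∨ r % 30 = 7 ∨ r % 30 = 11 ∨ r % 30 = 13 ∨ r % 30 = 17 ∨ r % 30 = 19 ∨
      r % 30 = 23 ∨ r % 30 = 29 := by
    have h0 : ∀ t : ℕ, t < 30 → t % 2 ≠ 0 → t % 3 ≠ 0 → t % 5 ≠ 0 → (t = 1 ∨ t = 7 ∨ t = 11 ∨
        t = 13 ∨ t = 17 ∨ t = 19 ∨ t = 23 ∨ t = 29) := by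
      intro t h1 h2 h3 h4
      interval_cases t <;> omega
    exact h0 (r % 30) (by omega) (by omega) (by omega) (by omega)
  have hb : blk p E k = true := by
    have h3 := hall k (by omega)
    unfold lf at h3
    have e1 : Nat.ble 33334 k = false := by
      rw [Bool.eq_false_iff]
      intro h
      have := Nat.le_of_ble_eq_true h
      omega
    have e2 : Nat.ble k 139 = false := by
      rw [Bool.eq_false_iff]
      intro h
      have := Nat.le_of_ble_eq_true h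
      omega
    rw [e1, e2] at h3
    exact h3
  have hr30 : r = 30 * k + r % 30 := by omega
  have key : ∀ c, (c = 0 ∨ c = 6 ∨ c = 10 ∨ c = 12 ∨ c = 16 ∨ c = 18 ∨ c = 22 ∨ c = 28) →
      r = 30 * k + c + 1 → p ^ (r - 1) % r ^ 2 ≠ 1 := by
    intro c hc hrc
    have h4 := blk_sound hb hc (by rw [← hrc]; exact hE)
    rw [← hrc] at h4
    have h5 : 30 * k + c = r - 1 := by omega
    rwa [h5] at h4
  rcases hc with h | h | h | h | h | h | h | h
  · exact key 0 (by omega) (by omega)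
  · exact key 6 (by omega) (by omega)
  · exact key 10 (by omega) (by omega)
  · exact key 12 (by omega) (by omega)
  · exact key 16 (by omega) (by omega)
  · exact key 18 (by omega) (by omega)
  · exact key 22 (by omega) (by omega)
  · exact key 28 (by omega) (by omega)

end Pool.Agent.Lib.MP_c8748f_nt.LP
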