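import Pool.Agent.Lib.MP_c8748f_nt.LP.Theory

/-!
# Friends of 10 (MP_c8748f_nt): faster functions for the kernel
-/

set_option autoImplicit false

namespace Pool.Agent.Lib.MP_c8748f_nt.LP

/-! ### Fermat quotients of many primes at once -/

/-- `1000!` -/
def PR : ℕ := nat_lit 4023872600770937735437024339230039857193748642107146325437999104299385123986290205920442084869694048004799886101971960586316668729948085589013238296699445909974245040870737599188236277271887325197795059509952761208749754624970436014182780946464962910563938874378864873371191810458257836478499770124766328898359557354325131853239584630755574091142624174743493475534286465766116677973966688202912073791438537195882498081268678383745597317461360853795345242215865932019280908782973084313928444032812315586110369768013573042161687476096758713483120254785893207671691324484262361314125087802080002616831510273418279777047846358681701643650241536913982812648102130927612448963599287051149649754199093422215668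32572080821333186116811553615836546984046708975602900950537616475847728421889679646244945160765353408198901385442487984959953319101723355556602139450399736280750137837615307127761926849034352625200015888535147331611702103968175921510907788019393178114194545257223865541461062892187960223838971476088506276862967146674697562911234082439208160153780889893964518263243671616762179168909779911903754031274622289988005195444414282012187361745992642956581746628302955570299024324153181617210465832036786906117260158783520751516284225540265170483304226143974286933061690897968482590125458327168226458066526769958652682272807075781391858178889652208164348344825993266043367660176999612831860788386150279465955131156552036093988180612138558600301435694527224206344631797460594682573103790084024432438465657245014402821885252470935190620929023136493273497565513958720559654228749774011413346962715422845862377387538230483865688976461927383814900140767310446640259899490222221765904339901886018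566526485061799702356193897017860040811889729918311021171229845901641921068884387121855646124960798722908519296819372388642614839657382291123125024186649353143970137428531926649875337218940694281434118520158014123344828015051399694290153483077644569099073152433278288269864602789864321139083506217095002597389863554277196742822248757586765752344220207573630569498825087968928162753848863396909959826280956121450994871701244516461260379029309120889086942028510640182154399457156805941872748998094254742173582401063677404595741785160829230135358081840096996372524230560855903700624271243416909004153690105933983835777939410970027753472000000000000000000000000000000000000000000000000000000000000000000000000000000000000000000000000000000000000000000000000000000000000000000000000000000000000000000000000000000000000000000000000000000000000000000000000000000000000000000000000000000000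

set_option maxRecDepth 100000 in
theorem PR_eq : PR = Nat.factorial 1000 := by decide +kernel

/-- `p ^ e` modulo `M` -/
def qw (p e M : ℕ) : ℕ :=
  Nat.mod (Nat.mul (Nat.pow (Nat.mod (Nat.mul (Nat.pow (Nat.mod (Nat.pow p (Nat.div e (nat_lit 10000))) M)
    (nat_lit 100)) (Nat.pow p (Nat.mod (Nat.div e (nat_lit 100)) (nat_lit 100)))) M) (nat_lit 100))
    (Nat.pow p (Nat.mod e (nat_lit 100)))) M

/-- the factor `b + c` if it is prime to `1000!` -/
def g (b c : ℕ) : ℕ :=
  @Bool.rec (fun _ => ℕ) (nat_lit 1) (Nat.add b c) (Nat.beq (Nat.gcd (Nat.add b c) PR) (nat_lit 1))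

/-- the product of the primes of a block -/
def Rb (b : ℕ) : ℕ :=
  Nat.mul (Nat.mul (Nat.mul (g b (nat_lit 1)) (g b (nat_lit 7))) (Nat.mul (g b (nat_lit 11)) (g b (nat_lit 13))))
    (Nat.mul (Nat.mul (g b (nat_lit 17)) (g b (nat_lit 19))) (Nat.mul (g b (nat_lit 23)) (g b (nat_lit 29))))

/-- `X p^d - 1` -/
def u (p X d : ℕ) : ℕ := Nat.sub (Nat.mul X (Nat.pow p d)) (nat_lit 1)

/-- the product of the numbers `p^(r-1) - 1` -/
def Yb (p X : ℕ) : ℕ :=
  Nat.mul (Nat.mul (Nat.mul (Nat.sub X (nat_lit 1)) (u p X (nat_lit 6))) (Nat.mul (u p X (nat_lit 10)) (u p X (nat_lit 12))))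
    (Nat.mul (Nat.mul (u p X (nat_lit 16)) (u p X (nat_lit 18))) (Nat.mul (u p X (nat_lit 22)) (u p X (nat_lit 28))))

/-- the exceptions -/
def EE (p : ℕ) : List ℕ :=
  cond (Nat.beq p 5) [20771, 40487] (cond (Nat.beq p 31) [6451] (cond (Nat.beq p 2221) [7481, 101489]
    (cond (Nat.beq p 5113) [22147] (cond (Nat.beq p 7879) [127679]
      (cond (Nat.beq p 21787) [100937] [])))))

/-- the test for one prime `p` and one block -/
def tp (k b R M p : ℕ) : Bool :=
  @Bool.rec (fun _ => Bool) (blk p (EE p) k) true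
    (Nat.beq (Nat.gcd (fc (qw p b M) (Yb p)) M) R)

/-- the test for a list of primes `p` and one block -/
def tpl (k b R M : ℕ) (L : List ℕ) : Bool :=
  List.rec true (fun p _ ih => @Bool.rec (fun _ => Bool) false ih (tp k b R M p)) L

/-- one block -/
def bk (L : List ℕ) (k : ℕ) : Bool :=
  fc (Nat.mul (nat_lit 30) k) (fun b => fc (Rb b) (fun R => fc (Nat.mul R R) (fun M => tpl k b R M L)))

/-- the blocks `140 ≤ k ≤ 33333` -/
def lb (L : List ℕ) (k : ℕ) : Bool :=
  cond (Nat.ble (nat_lit 33334) k) true (cond (Nat.ble k (nat_lit 139)) true (bk L k))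

theorem qw_eq (p e M : ℕ) : qw p e M = p ^ e % M := pw_eq p e M

theorem g_eq (b c : ℕ) : g b c = if Nat.gcd (b + c) PR = 1 then b + c else 1 := by
  unfold g
  by_cases h : Nat.gcd (b + c) PR = 1
  · rw [if_pos h]
    have h1 : Nat.beq (Nat.gcd (Nat.add b c) PR) 1 = true := by
      rw [Nat.beq_eq]
      exact h
    rw [h1]
    rfl
  · rw [if_neg h]
    have h1 : Nat.beq (Nat.gcd (Nat.add b c) PR) 1 = false := by
      rw [Bool.eq_false_iff]
      intro h2
      exact h (Nat.eq_of_beq_eq_true h2)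
    rw [h1]

theorem g_prime {b c r : ℕ} (hr : r.Prime) (h : r = b + c) (h1 : 1000 < r) : g b c = r := by
  rw [g_eq, if_pos, h]
  rw [← h, PR_eq]
  refine (Nat.Prime.coprime_iff_not_dvd hr).2 fun h2 => ?_
  have := hr.dvd_factorial.1 h2
  omega

theorem g_not {b c c' r : ℕ} (hr : r.Prime) (h : r = b + c) (h1 : 1000 < r) (hc : c < 30)
    (hc' : c' < 30) (hne : c ≠ c') : ¬ r ∣ g b c' := by
  rw [g_eq]
  intro h2
  split_ifs at h2
  · rcases Nat.lt_or_ge c c' with h3 | h3
    · have h4 : r ∣ (b + c') - r := Nat.dvd_sub h2 (dvd_refl r)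
      have h5 := Nat.le_of_dvd (by omega) h4
      omega
    · have h4 : r ∣ r - (b + c') := Nat.dvd_sub (dvd_refl r) h2
      have h5 := Nat.le_of_dvd (by omega) h4
      omega
  · have := Nat.le_of_dvd (by norm_num) h2
    omega

theorem eight {r : ℕ} (hr : r.Prime) {a b c d e f g : ℕ} (ha : ¬ r ∣ a) (hb : ¬ r ∣ b)
    (hc : ¬ r ∣ c) (hd : ¬ r ∣ d) (he : ¬ r ∣ e) (hf : ¬ r ∣ f) (hg : ¬ r ∣ g) {N : ℕ}
    (hN : N = r * (a * b * c * d * e * f * g)) : ¬ r * r ∣ N := by
  rw [hN]
  intro h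
  have h1 := Nat.dvd_of_mul_dvd_mul_left hr.pos h
  simp only [hr.dvd_mul] at h1
  tauto

theorem Rb_not {b c r : ℕ} (hr : r.Prime) (h : r = b + c) (h1 : 1000 < r)
    (hc : c = 1 ∨ c = 7 ∨ c = 11 ∨ c = 13 ∨ c = 17 ∨ c = 19 ∨ c = 23 ∨ c = 29) :
    r ∣ Rb b ∧ ¬ r * r ∣ Rb b := by
  have hR : Rb b = ((g b 1 * g b 7) * (g b 11 * g b 13)) * ((g b 17 * g b 19) * (g b 23 * g b 29)) :=
    rfl
  have hg := g_prime hr h h1
  have hn : ∀ c', c' < 30 → c ≠ c' → ¬ r ∣ g b c' := fun c' h2 h3 =>
    g_not hr h h1 (by omega) h2 h3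
  rcases hc with rfl | rfl | rfl | rfl | rfl | rfl | rfl | rfl
  · refine ⟨?_, eight hr (hn 7 (by norm_num) (by norm_num)) (hn 11 (by norm_num) (by norm_num))
      (hn 13 (by norm_num) (by norm_num)) (hn 17 (by norm_num) (by norm_num))
      (hn 19 (by norm_num) (by norm_num)) (hn 23 (by norm_num) (by norm_num))
      (hn 29 (by norm_num) (by norm_num)) (by rw [hR, hg]; ring)⟩
    rw [hR, hg]
    exact ((dvd_mul_right _ _).mul_right _).mul_right _
  · refine ⟨?_, eight hr (hn 1 (by norm_num) (by norm_num)) (hn 11 (by norm_num) (by norm_num))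
      (hn 13 (by norm_num) (by norm_num)) (hn 17 (by norm_num) (by norm_num))
      (hn 19 (by norm_num) (by norm_num)) (hn 23 (by norm_num) (by norm_num))
      (hn 29 (by norm_num) (by norm_num)) (by rw [hR, hg]; ring)⟩
    rw [hR, hg]
    exact ((dvd_mul_left _ _).mul_right _).mul_right _
  · refine ⟨?_, eight hr (hn 1 (by norm_num) (by norm_num)) (hn 7 (by norm_num) (by norm_num))
      (hn 13 (by norm_num) (by norm_num)) (hn 17 (by norm_num) (by norm_num))
      (hn 19 (by norm_num) (by norm_num)) (hn 23 (by norm_num) (by norm_num))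
      (hn 29 (by norm_num) (by norm_num)) (by rw [hR, hg]; ring)⟩
    rw [hR, hg]
    exact ((dvd_mul_right _ _).mul_left _).mul_right _
  · refine ⟨?_, eight hr (hn 1 (by norm_num) (by norm_num)) (hn 7 (by norm_num) (by norm_num))
      (hn 11 (by norm_num) (by norm_num)) (hn 17 (by norm_num) (by norm_num))
      (hn 19 (by norm_num) (by norm_num)) (hn 23 (by norm_num) (by norm_num))
      (hn 29 (by norm_num) (by norm_num)) (by rw [hR, hg]; ring)⟩
    rw [hR, hg]
    exact ((dvd_mul_left _ _).mul_left _).mul_right _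
  · refine ⟨?_, eight hr (hn 1 (by norm_num) (by norm_num)) (hn 7 (by norm_num) (by norm_num))
      (hn 11 (by norm_num) (by norm_num)) (hn 13 (by norm_num) (by norm_num))
      (hn 19 (by norm_num) (by norm_num)) (hn 23 (by norm_num) (by norm_num))
      (hn 29 (by norm_num) (by norm_num)) (by rw [hR, hg]; ring)⟩
    rw [hR, hg]
    exact ((dvd_mul_right _ _).mul_right _).mul_left _
  · refine ⟨?_, eight hr (hn 1 (by norm_num) (by norm_num)) (hn 7 (by norm_num) (by norm_num))
      (hn 11 (by norm_num) (by norm_num)) (hn 13 (by norm_num) (by norm_num))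
      (hn 17 (by norm_num) (by norm_num)) (hn 23 (by norm_num) (by norm_num))
      (hn 29 (by norm_num) (by norm_num)) (by rw [hR, hg]; ring)⟩
    rw [hR, hg]
    exact ((dvd_mul_left _ _).mul_right _).mul_left _
  · refine ⟨?_, eight hr (hn 1 (by norm_num) (by norm_num)) (hn 7 (by norm_num) (by norm_num))
      (hn 11 (by norm_num) (by norm_num)) (hn 13 (by norm_num) (by norm_num))
      (hn 17 (by norm_num) (by norm_num)) (hn 19 (by norm_num) (by norm_num))
      (hn 29 (by norm_num) (by norm_num)) (by rw [hR, hg]; ring)⟩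
    rw [hR, hg]
    exact ((dvd_mul_right _ _).mul_left _).mul_left _
  · refine ⟨?_, eight hr (hn 1 (by norm_num) (by norm_num)) (hn 7 (by norm_num) (by norm_num))
      (hn 11 (by norm_num) (by norm_num)) (hn 13 (by norm_num) (by norm_num))
      (hn 17 (by norm_num) (by norm_num)) (hn 19 (by norm_num) (by norm_num))
      (hn 23 (by norm_num) (by norm_num)) (by rw [hR, hg]; ring)⟩
    rw [hR, hg]
    exact ((dvd_mul_left _ _).mul_left _).mul_left _

theorem u_dvd {p X b d r : ℕ} (hX : X % r ^ 2 = p ^ b % r ^ 2) (h2 : 1 < r)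
    (h : p ^ (b + d) % r ^ 2 = 1) : r ^ 2 ∣ u p X d := by
  have h3 : X * p ^ d % r ^ 2 = 1 := by
    rw [Nat.mul_mod, hX, ← Nat.mul_mod, ← pow_add, h]
  show r ^ 2 ∣ X * p ^ d - 1
  have h4 : 1 % r ^ 2 = 1 := Nat.mod_eq_of_lt (by nlinarith)
  have h5 : 1 ≤ X * p ^ d := by
    rcases Nat.eq_zero_or_pos (X * p ^ d) with h6 | h6
    · rw [h6, Nat.zero_mod] at h3
      omega
    · exact h6
  exact (Nat.modEq_iff_dvd' h5).1 (by rw [Nat.ModEq, h3, h4])

theorem Y_dvd {p X b c r : ℕ} (hX : X % r ^ 2 = p ^ b % r ^ 2) (h2 : 1 < r)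
    (hc : c = 1 ∨ c = 7 ∨ c = 11 ∨ c = 13 ∨ c = 17 ∨ c = 19 ∨ c = 23 ∨ c = 29)
    (h : p ^ (b + (c - 1)) % r ^ 2 = 1) : r ^ 2 ∣ Yb p X := by
  have hY : Yb p X = (((X - 1) * u p X 6) * (u p X 10 * u p X 12)) *
    ((u p X 16 * u p X 18) * (u p X 22 * u p X 28)) := rfl
  have h1 := u_dvd hX h2 h
  rw [hY]
  rcases hc with rfl | rfl | rfl | rfl | rfl | rfl | rfl | rfl
  · have h3 : u p X (1 - 1) = X - 1 := by
      show X * p ^ 0 - 1 = X - 1
      rw [pow_zero, mul_one]
    rw [h3] at h1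
    exact ((h1.mul_right _).mul_right _).mul_right _
  · exact ((h1.mul_left _).mul_right _).mul_right _
  · exact ((h1.mul_right _).mul_left _).mul_right _
  · exact ((h1.mul_left _).mul_left _).mul_right _
  · exact ((h1.mul_right _).mul_right _).mul_left _
  · exact ((h1.mul_left _).mul_right _).mul_left _
  · exact ((h1.mul_right _).mul_left _).mul_left _
  · exact ((h1.mul_left _).mul_left _).mul_left _

theorem tpl_mem (k b R M : ℕ) : ∀ (L : List ℕ), tpl k b R M L = true → ∀ p ∈ L, tp k b R M p = true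
  | [], _, p, hp => absurd hp (List.not_mem_nil)
  | a :: L, h, p, hp => by
    have h1 : @Bool.rec (fun _ => Bool) false (tpl k b R M L) (tp k b R M a) = true := h
    cases h2 : tp k b R M a with
    | false =>
      rw [h2] at h1
      exact absurd h1 Bool.false_ne_true
    | true =>
      rw [h2] at h1
      rcases List.mem_cons.1 hp with h3 | h3
      · rw [h3]
        exact h2
      · exact tpl_mem k b R M L h1 p h3

theorem bk_sound {L : List ℕ} {k : ℕ} (h : bk L k = true) {p : ℕ} (hp : p ∈ L) {r c : ℕ}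
    (hr : r.Prime) (hrc : r = 30 * k + c) (h1 : 1000 < r)
    (hc : c = 1 ∨ c = 7 ∨ c = 11 ∨ c = 13 ∨ c = 17 ∨ c = 19 ∨ c = 23 ∨ c = 29)
    (hE : r ∉ EE p) : p ^ (r - 1) % r ^ 2 ≠ 1 := by
  unfold bk at h
  rw [fc_eq, fc_eq, fc_eq] at h
  have h2 := tpl_mem _ _ _ _ L h p hp
  unfold tp at h2
  rw [fc_eq] at h2
  have hk : Nat.mul 30 k = 30 * k := rfl
  have hRR : Nat.mul (Rb (Nat.mul 30 k)) (Rb (Nat.mul 30 k)) = Rb (30 * k) * Rb (30 * k) := rfl
  rw [hRR, hk] at h2
  set b := 30 * k with hb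
  intro h3
  cases h4 : Nat.beq (Nat.gcd (Yb p (qw p b (Rb b * Rb b))) (Rb b * Rb b)) (Rb b) with
  | true =>
    have h5 := Nat.eq_of_beq_eq_true h4
    obtain ⟨h6, h7⟩ := Rb_not hr hrc h1 hc
    have h8 : r ^ 2 ∣ Rb b * Rb b := by
      rw [sq]
      exact Nat.mul_dvd_mul h6 h6
    have hX : qw p b (Rb b * Rb b) % r ^ 2 = p ^ b % r ^ 2 := by
      rw [qw_eq, Nat.mod_mod_of_dvd _ h8]
    have h9 : r ^ 2 ∣ Yb p (qw p b (Rb b * Rb b)) := by
      refine Y_dvd hX (by omega) hc ?_
      have h10 : b + (c - 1) = r - 1 := by omega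
      rw [h10]
      exact h3
    apply h7
    rw [← sq, ← h5]
    exact Nat.dvd_gcd h9 h8
  | false =>
    rw [h4] at h2
    have h5 : 30 * k + (c - 1) + 1 = r := by omega
    have h6 := blk_sound (c := c - 1) h2 (by omega) (by rw [h5]; exact hE)
    have h7 : 30 * k + (c - 1) = r - 1 := by omega
    rw [h5, h7] at h6
    exact h6 h3

theorem lb_sound {L : List ℕ} (hall : al (lb L) 16 0 = true) {p : ℕ} (hp : p ∈ L) {r : ℕ}
    (hr : r.Prime) (h1 : 4201 ≤ r) (h2 : r ≤ BB) (hE : r ∉ EE p) : p ^ (r - 1) % r ^ 2 ≠ 1 := by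
  have hBB : BB = 1000000 := rfl
  rw [hBB] at h2
  have n2 : r % 2 ≠ 0 := fun h => by
    have := (Nat.prime_dvd_prime_iff_eq Nat.prime_two hr).1 (Nat.dvd_of_mod_eq_zero h)
    omega
  have n3 : r % 3 ≠ 0 := fun h => by
    have := (Nat.prime_dvd_prime_iff_eq Nat.prime_three hr).1 (Nat.dvd_of_mod_eq_zero h)
    omega
  have n5 : r % 5 ≠ 0 := fun h => by
    have := (Nat.prime_dvd_prime_iff_eq Nat.prime_five hr).1 (Nat.dvd_of_mod_eq_zero h)
    omega
  set k := r / 30 with hk
  have hk1 : 140 ≤ k := by omega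
  have hk2 : k ≤ 33333 := by omega
  have hc : r % 30 = 1 ∨ r % 30 = 7 ∨ r % 30 = 11 ∨ r % 30 = 13 ∨ r % 30 = 17 ∨ r % 30 = 19 ∨
      r % 30 = 23 ∨ r % 30 = 29 := by
    have h0 : ∀ t : ℕ, t < 30 → t % 2 ≠ 0 → t % 3 ≠ 0 → t % 5 ≠ 0 → (t = 1 ∨ t = 7 ∨ t = 11 ∨
        t = 13 ∨ t = 17 ∨ t = 19 ∨ t = 23 ∨ t = 29) := by
      intro t h1 h2 h3 h4
      interval_cases t <;> omega
    exact h0 (r % 30) (by omega) (by omega) (by omega) (by omega)
  have hb : bk L k = true := by
    have h3 := al_sound (lb L) 16 0 hall k (by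
      rw [Nat.div_eq_zero_iff]
      right
      norm_num
      omega)
    unfold lb at h3
    have e1 : Nat.ble 33334 k = false := by
      rw [Bool.eq_false_iff]
      intro h
      have := Nat.le_of_ble_eq_true h
      omega
    have e2 : Nat.ble k 139 = false := by
      rw [Bool.eq_false_iff]
      intro h
      have := Nat.le_of_ble_eq_true h
      omega
    rw [e1, e2] at h3
    exact h3
  exact bk_sound hb hp hr (c := r % 30) (by omega) (by omega) hc hE

theorem bigOK_of2 {p : ℕ} {L : List ℕ} (hp : 2 ≤ p) (h : al (lb L) 16 0 = true) (hL : p ∈ L)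
    (hE : ∀ r ∈ EE p, ∀ q, q.Prime → 2100 < q → q ∣ r - 1 → ¬ r ∣ p ^ q - 1) : BigOK p := by
  intro q hq hq2 r hr hrB hqr hrd hrr
  have hr2 : 2 ≤ r := hr.two_le
  have h1 : q ≤ r - 1 := Nat.le_of_dvd (by omega) hqr
  have h2 : r % 2 = 1 := hr.eq_two_or_odd.resolve_left (by omega)
  have h3 : 2 * q ∣ r - 1 := by
    refine Nat.Coprime.mul_dvd_of_dvd_of_dvd ?_ (by omega) hqr
    exact (Nat.coprime_primes Nat.prime_two hq).2 (by omega)
  have h4 : 2 * q ≤ r - 1 := Nat.le_of_dvd (by omega) h3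
  by_cases hmem : r ∈ EE p
  · exact hE r hmem q hq hq2 hqr hrd
  · refine lb_sound h hL hr (by omega) hrB hmem ?_
    have h5 : p ^ q - 1 ∣ p ^ (r - 1) - 1 := by
      obtain ⟨j, hj⟩ := hqr
      rw [hj, pow_mul]
      have := Nat.sub_dvd_pow_sub_pow (p ^ q) 1 j
      rwa [one_pow] at this
    have h6 : r ^ 2 ∣ p ^ (r - 1) - 1 := hrr.trans h5
    have h7 : 1 ≤ p ^ (r - 1) := Nat.one_le_pow _ _ (by omega)
    have h8 : p ^ (r - 1) ≡ 1 [MOD r ^ 2] := ((Nat.modEq_iff_dvd' h7).2 h6).symm
    have h9 : 1 < r ^ 2 := by nlinarith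
    rw [Nat.ModEq, Nat.mod_eq_of_lt h9] at h8
    exact h8

/-! ### small `q` -/

/-- eight factors `Q j + 1`, `j = 8 a, .., 8 a + 7` -/
def leaf8 (Q S W6 W10 W12 a : ℕ) : ℕ :=
  fc (Nat.add (Nat.mul Q (Nat.mul (nat_lit 8) a)) (nat_lit 1)) (fun x =>
    fc (Nat.mul x (Nat.add x S)) (fun y =>
      Nat.mul (Nat.mul y (Nat.add y W6)) (Nat.mul (Nat.add y W10) (Nat.add y W12))))

/-- balanced product -/
def pr8 (Q S W6 W10 W12 n d : ℕ) : ℕ → ℕ :=
  Nat.rec (fun a => @Bool.rec (fun _ => ℕ) (leaf8 Q S W6 W10 W12 a) (nat_lit 1) (Nat.ble n a))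
    (fun _ ih a => fc (Nat.mul (nat_lit 2) a) (fun x => Nat.mul (ih x) (ih (Nat.succ x)))) d

theorem pr8_succ (Q S W6 W10 W12 n d a : ℕ) : pr8 Q S W6 W10 W12 n (d + 1) a =
    pr8 Q S W6 W10 W12 n d (2 * a) * pr8 Q S W6 W10 W12 n d (2 * a + 1) := by
  show fc (Nat.mul 2 a) (fun x => Nat.mul (pr8 Q S W6 W10 W12 n d x)
    (pr8 Q S W6 W10 W12 n d (Nat.succ x))) = _
  rw [fc_eq]
  rfl

theorem leaf8_dvd (Q a i : ℕ) (hi : i < 8) :
    Q * (8 * a + i) + 1 ∣ leaf8 Q (7 * Q) (6 * (Q * Q)) (10 * (Q * Q)) (12 * (Q * Q)) a := by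
  unfold leaf8
  rw [fc_eq, fc_eq]
  show Q * (8 * a + i) + 1 ∣ (((Q * (8 * a) + 1) * ((Q * (8 * a) + 1) + 7 * Q)) *
    ((Q * (8 * a) + 1) * ((Q * (8 * a) + 1) + 7 * Q) + 6 * (Q * Q))) *
    (((Q * (8 * a) + 1) * ((Q * (8 * a) + 1) + 7 * Q) + 10 * (Q * Q)) *
    ((Q * (8 * a) + 1) * ((Q * (8 * a) + 1) + 7 * Q) + 12 * (Q * Q)))
  have e6 : (Q * (8 * a) + 1) * ((Q * (8 * a) + 1) + 7 * Q) + 6 * (Q * Q) =
      (Q * (8 * a + 1) + 1) * (Q * (8 * a + 6) + 1) := by ring
  have e10 : (Q * (8 * a) + 1) * ((Q * (8 * a) + 1) + 7 * Q) + 10 * (Q * Q) =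
      (Q * (8 * a + 2) + 1) * (Q * (8 * a + 5) + 1) := by ring
  have e12 : (Q * (8 * a) + 1) * ((Q * (8 * a) + 1) + 7 * Q) + 12 * (Q * Q) =
      (Q * (8 * a + 3) + 1) * (Q * (8 * a + 4) + 1) := by ring
  have e0 : (Q * (8 * a) + 1) * ((Q * (8 * a) + 1) + 7 * Q) =
      (Q * (8 * a + 0) + 1) * (Q * (8 * a + 7) + 1) := by ring
  rw [e6, e10, e12, e0]
  interval_cases i
  · exact ((dvd_mul_right _ _).mul_right _).mul_right _
  · exact ((dvd_mul_right _ _).mul_left _).mul_right _
  · exact ((dvd_mul_right _ _).mul_right _).mul_left _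
  · exact ((dvd_mul_right _ _).mul_left _).mul_left _
  · exact ((dvd_mul_left _ _).mul_left _).mul_left _
  · exact ((dvd_mul_left _ _).mul_right _).mul_left _
  · exact ((dvd_mul_left _ _).mul_left _).mul_right _
  · exact ((dvd_mul_left _ _).mul_right _).mul_right _

theorem pr8_dvd (Q n i : ℕ) (hi : i < 8) : ∀ d a j : ℕ, j / 2 ^ d = a → j < n →
    Q * (8 * j + i) + 1 ∣ pr8 Q (7 * Q) (6 * (Q * Q)) (10 * (Q * Q)) (12 * (Q * Q)) n d a
  | 0, a, j, h, hj => by
    rw [pow_zero, Nat.div_one] at h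
    show _ ∣ @Bool.rec (fun _ => ℕ) (leaf8 Q (7 * Q) (6 * (Q * Q)) (10 * (Q * Q)) (12 * (Q * Q)) a) 1
      (Nat.ble n a)
    have h1 : Nat.ble n a = false := by
      rw [Bool.eq_false_iff]
      intro h2
      have := Nat.le_of_ble_eq_true h2
      omega
    rw [h1, h]
    exact leaf8_dvd Q a i hi
  | d + 1, a, j, h, hj => by
    rw [pr8_succ]
    have h1 : j / 2 ^ d / 2 = a := by rw [Nat.div_div_eq_div_mul, ← pow_succ, h]
    rcases Nat.mod_two_eq_zero_or_one (j / 2 ^ d) with h2 | h2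
    · exact (pr8_dvd Q n i hi d (2 * a) j (by omega) hj).mul_right _
    · exact (pr8_dvd Q n i hi d (2 * a + 1) j (by omega) hj).mul_left _

/-- the test for one `q` -/
def ch8 (q : ℕ) (L : List ℕ) : Bool :=
  fc (Nat.mul (nat_lit 2) q) (fun Q => fc (Nat.mul (nat_lit 7) Q) (fun S =>
    fc (Nat.mul (nat_lit 6) (Nat.mul Q Q)) (fun W6 => fc (Nat.mul (nat_lit 10) (Nat.mul Q Q)) (fun W10 =>
      fc (Nat.mul (nat_lit 12) (Nat.mul Q Q)) (fun W12 =>
        fc (Nat.succ (Nat.div BB (Nat.mul (nat_lit 8) Q))) (fun n =>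
          fc (Nat.mul q (pr8 Q S W6 W10 W12 n (Nat.succ (Nat.log2 n)) (nat_lit 0))) (fun P =>
            tsl q P L)))))))

/-- the test for a list of `q` -/
def cl8 (L Q : List ℕ) : Bool :=
  List.rec true (fun q _ ih => @Bool.rec (fun _ => Bool) false ih (ch8 q L)) Q

theorem cl8_mem (L : List ℕ) : ∀ (Q : List ℕ), cl8 L Q = true → ∀ q ∈ Q, ch8 q L = true
  | [], _, q, hq => absurd hq (List.not_mem_nil)
  | a :: Q, h, q, hq => by
    have h1 : @Bool.rec (fun _ => Bool) false (cl8 L Q) (ch8 a L) = true := h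
    cases h2 : ch8 a L with
    | false =>
      rw [h2] at h1
      exact absurd h1 Bool.false_ne_true
    | true =>
      rw [h2] at h1
      rcases List.mem_cons.1 hq with h3 | h3
      · rw [h3]
        exact h2
      · exact cl8_mem L Q h1 q h3

theorem ch8_sound {q : ℕ} (hq0 : 0 < q) {L : List ℕ} (h : ch8 q L = true) {p : ℕ} (hp : p ∈ L) :
    ∃ P : ℕ, (∀ j, 2 * q * j < BB → 2 * q * j + 1 ∣ P) ∧ q ∣ P ∧ ¬ ph q p ∣ P ^ 2 ^ 16 := by
  unfold ch8 at h
  rw [fc_eq, fc_eq, fc_eq, fc_eq, fc_eq, fc_eq, fc_eq] at h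
  have h1 := tsl_mem q _ L h p hp
  unfold tst at h1
  rw [fc_eq, fc_eq] at h1
  have h2 := sqs_pos 16 h1
  set n := BB / (8 * (2 * q)) + 1 with hn
  refine ⟨q * pr8 (2 * q) (7 * (2 * q)) (6 * (2 * q * (2 * q))) (10 * (2 * q * (2 * q)))
    (12 * (2 * q * (2 * q))) n (Nat.log2 n + 1) 0, ?_, dvd_mul_right _ _, h2⟩
  intro j hj
  have h3 : j / 8 < n := by
    rw [hn, Nat.lt_succ_iff, Nat.le_div_iff_mul_le (by omega)]
    calc j / 8 * (8 * (2 * q)) = 2 * q * (j / 8 * 8) := by ring
      _ ≤ 2 * q * j := Nat.mul_le_mul_left _ (Nat.div_mul_le_self j 8)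
      _ ≤ BB := hj.le
  have h4 : n < 2 ^ (Nat.log2 n + 1) := Nat.lt_log2_self
  have h5 := pr8_dvd (2 * q) n (j % 8) (Nat.mod_lt _ (by norm_num)) (Nat.log2 n + 1) 0 (j / 8)
    (by rw [Nat.div_eq_zero_iff]; right; omega) h3
  rw [Nat.div_add_mod] at h5
  exact h5.mul_left _

theorem small_not2 {p q : ℕ} {L : List ℕ} (hp : 2 ≤ p) (hp2 : p < 2 ^ 18) (hq : q.Prime)
    (hq2 : q ≠ 2) (hq3 : q ≤ 2100) (hL : p ∈ L) (h : ch8 q L = true) : ¬ Sm (ph q p) := by
  intro hS
  obtain ⟨P, h1, h2, h3⟩ := ch8_sound hq.pos h hL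
  apply h3
  have hN0 : ph q p ≠ 0 := by
    have h4 := ph_ge (p := p) (q := q) hp hq.one_le
    have h5 : 0 < p ^ (q - 1) := pow_pos (by omega) _
    omega
  have hlt : ph q p < 2 ^ 2 ^ 16 := by
    calc ph q p < p ^ q := ph_lt hp hq.one_le
      _ ≤ (2 ^ 18) ^ q := Nat.pow_le_pow_left hp2.le _
      _ = 2 ^ (18 * q) := (pow_mul 2 18 q).symm
      _ ≤ 2 ^ 2 ^ 16 := Nat.pow_le_pow_right (by norm_num) (by norm_num; omega)
  refine dvd_pow_of hN0 hlt fun r hr hrN => ?_
  rcases factor hp hq hr hrN with ⟨h4, _⟩ | h4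
  · rw [h4]
    exact h2
  · have hr2 : 2 ≤ r := hr.two_le
    have h5 : q ≤ r - 1 := Nat.le_of_dvd (by omega) h4
    have hqq : 3 ≤ q := by
      have := hq.two_le
      omega
    have h6 : r % 2 = 1 := hr.eq_two_or_odd.resolve_left (by omega)
    have h7 : 2 * q ∣ r - 1 := by
      refine Nat.Coprime.mul_dvd_of_dvd_of_dvd ?_ (by omega) h4
      exact (Nat.coprime_primes Nat.prime_two hq).2 (by omega)
    obtain ⟨j, hj⟩ := h7
    have hB := hS r hr hrN
    have h8 : r = 2 * q * j + 1 := by omega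
    rw [h8]
    exact h1 j (by omega)

end Pool.Agent.Lib.MP_c8748f_nt.LP
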