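import Pool.Agent.Lib.MP_c8748f_nt.LP.Calc2

/-!
# Friends of 10 (MP_c8748f_nt): Fermat quotients below one million, part 1
-/

set_option autoImplicit false

namespace Pool.Agent.Lib.MP_c8748f_nt.LP

/-- primes -/
def L1 : List ℕ := [5, 31, 71, 331]

set_option maxRecDepth 100000 in
theorem gq1 : al (lb [nat_lit 5, nat_lit 31, nat_lit 71, nat_lit 331]) (nat_lit 16) (nat_lit 0) = true := by
  decide +kernel

theorem gL1 : al (lb L1) 16 0 = true := gq1

end Pool.Agent.Lib.MP_c8748f_nt.LP
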