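import Pool.Agent.Lib.MP_c8748f_nt.LP.Calc2

/-!
# Friends of 10 (MP_c8748f_nt): Fermat quotients below one million, part 2
-/

set_option autoImplicit false

namespace Pool.Agent.Lib.MP_c8748f_nt.LP

/-- primes -/
def L2 : List ℕ := [1201, 2221, 5113, 5233]

set_option maxRecDepth 100000 in
theorem gq2 : al (lb [nat_lit 1201, nat_lit 2221, nat_lit 5113, nat_lit 5233]) (nat_lit 16) (nat_lit 0) = true := by
  decide +kernel

theorem gL2 : al (lb L2) 16 0 = true := gq2

end Pool.Agent.Lib.MP_c8748f_nt.LP
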