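import Pool.Agent.Lib.MP_c8748f_nt.LP.Calc2

/-!
# Friends of 10 (MP_c8748f_nt): Fermat quotients below one million, part 3
-/

set_option autoImplicit false

namespace Pool.Agent.Lib.MP_c8748f_nt.LP

/-- primes -/
def L3 : List ℕ := [7879, 17351, 19531]

set_option maxRecDepth 100000 in
theorem gq3 : al (lb [nat_lit 7879, nat_lit 17351, nat_lit 19531]) (nat_lit 16) (nat_lit 0) = true := by
  decide +kernel

theorem gL3 : al (lb L3) 16 0 = true := gq3

end Pool.Agent.Lib.MP_c8748f_nt.LP
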