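import Pool.Agent.Lib.MP_c8748f_nt.LP.Calc2

/-!
# Friends of 10 (MP_c8748f_nt): the exponents divisible by small primes, computation
-/

set_option autoImplicit false

namespace Pool.Agent.Lib.MP_c8748f_nt.LP

/-- the primes of the tree -/
def LL : List ℕ := [5, 31, 71, 331, 1201, 2221, 5113, 5233, 7879, 17351, 19531, 21787, 37861, 235003]

/-- the primes from 11 to 2100 -/
def QQ : List ℕ := [11, 13, 17, 19, 23, 29, 31, 37, 41, 43, 47, 53, 59, 61, 67, 71, 73, 79, 83, 89, 97, 101, 103, 107, 109, 113, 127, 131, 137, 139, 149, 151, 157, 163, 167, 173, 179, 181, 191, 193, 197, 199, 211, 223, 227, 229, 233, 239, 241, 251, 257, 263, 269, 271, 277, 281, 283, 293, 307, 311, 313, 317, 331, 337, 347, 349, 353, 359, 367, 373, 379, 383, 389, 397, 401, 409, 419, 421, 431, 433, 439, 443, 449, 457, 461, 463, 467, 479, 487, 491, 499, 503, 509, 521, 523, 541, 547, 557, 563, 569, 571, 577, 587, 593, 599, 601, 607, 613, 617, 619, 631, 641, 643, 647, 653, 659, 661, 673, 677, 683, 691,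 701, 709, 719, 727, 733, 739, 743, 751, 757, 761, 769, 773, 787, 797, 809, 811, 821, 823, 827, 829, 839, 853, 857, 859, 863, 877, 881, 883, 887, 907, 911, 919, 929, 937, 941, 947, 953, 967, 971, 977, 983, 991, 997, 1009, 1013, 1019, 1021, 1031, 1033, 1039, 1049, 1051, 1061, 1063, 1069, 1087, 1091, 1093, 1097, 1103, 1109, 1117, 1123, 1129, 1151, 1153, 1163, 1171, 1181, 1187, 1193, 1201, 1213, 1217, 1223, 1229, 1231, 1237, 1249, 1259, 1277, 1279, 1283, 1289, 1291, 1297, 1301, 1303, 1307, 1319, 1321, 1327, 1361, 1367, 1373, 1381, 1399, 1409, 1423, 1427, 1429, 1433, 1439, 1447, 1451, 1453, 1459, 1471, 1481, 1483, 1487, 1489, 1493, 1499, 1511, 1523, 1531, 1543, 1549, 1553, 1559, 1567, 1571, 1579, 1583, 1597, 1601, 1607, 1609, 1613, 1619, 1621, 1627, 1637, 1657, 1663, 1667, 1669, 1693, 1697, 1699, 1709, 1721, 1723, 1733, 1741, 1747, 1753, 1759, 1777, 1783, 1787, 1789, 1801, 1811, 1823, 1831, 1847, 1861, 1867, 1871, 1873, 1877, 1879, 1889, 1901, 1907, 1913, 1931, 1933,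 1949, 1951, 1973, 1979, 1987, 1993, 1997, 1999, 2003, 2011, 2017, 2027, 2029, 2039, 2053, 2063, 2069, 2081, 2083, 2087, 2089, 2099]

theorem c3 : ch8 (nat_lit 3) [nat_lit 5113, nat_lit 19531, nat_lit 21787] = true := by decide +kernel

theorem c5 : ch8 (nat_lit 5) [nat_lit 1201, nat_lit 2221, nat_lit 5113, nat_lit 5233, nat_lit 7879, nat_lit 17351, nat_lit 19531, nat_lit 21787, nat_lit 37861, nat_lit 235003] = true := by decide +kernel

theorem c7 : ch8 (nat_lit 7) [nat_lit 31, nat_lit 71, nat_lit 331, nat_lit 1201, nat_lit 2221, nat_lit 5113, nat_lit 5233, nat_lit 7879, nat_lit 17351, nat_lit 19531, nat_lit 21787, nat_lit 37861, nat_lit 235003] = true := by decide +kernel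

set_option maxRecDepth 100000 in
theorem cQ : cl8 LL QQ = true := by decide +kernel

theorem c3' : ch8 3 [5113, 19531, 21787] = true := c3

theorem c5' : ch8 5 [1201, 2221, 5113, 5233, 7879, 17351, 19531, 21787, 37861, 235003] = true := c5

theorem c7' : ch8 7 [31, 71, 331, 1201, 2221, 5113, 5233, 7879, 17351, 19531, 21787, 37861, 235003] = true := c7

end Pool.Agent.Lib.MP_c8748f_nt.LP
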