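import Pool.Agent.Lib.MP_c8748f_nt.LP.Calc

/-!
# Friends of 10 (MP_c8748f_nt): prime factors of `1 + p + .. + p^(q-1)`
-/

set_option autoImplicit false

namespace Pool.Agent.Lib.MP_c8748f_nt.LP

/-- all prime factors are at most `BB` -/
def Sm (N : ℕ) : Prop := ∀ r, r.Prime → r ∣ N → r ≤ BB

theorem ph_mul {p q : ℕ} : ph q p * (p - 1) = p ^ q - 1 := by
  have h : p - 1 ∣ p ^ q - 1 := by
    have := Nat.sub_dvd_pow_sub_pow p 1 q
    rwa [one_pow] at this
  exact Nat.div_mul_cancel h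

theorem ph_dvd_sub {p q : ℕ} : ph q p ∣ p ^ q - 1 := ⟨p - 1, ph_mul.symm⟩

theorem ph_ge {p q : ℕ} (hp : 2 ≤ p) (hq : 1 ≤ q) : p ^ (q - 1) ≤ ph q p := by
  rw [ph_eq hp]
  exact Finset.single_le_sum (f := fun j => p ^ j) (fun _ _ => Nat.zero_le _)
    (Finset.mem_range.2 (by omega))

theorem ph_lt {p q : ℕ} (hp : 2 ≤ p) (hq : 1 ≤ q) : ph q p < p ^ q := by
  have h1 : ph q p ≤ p ^ q - 1 := by
    rw [← ph_mul (p := p) (q := q)]
    exact Nat.le_mul_of_pos_right _ (by omega)
  have h2 : 0 < p ^ q := pow_pos (by omega) _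
  omega

/-- the prime factors -/
theorem factor {p q r : ℕ} (hp : 2 ≤ p) (hq : q.Prime) (hr : r.Prime) (h : r ∣ ph q p) :
    (r = q ∧ q ∣ p - 1) ∨ q ∣ r - 1 := by
  haveI : Fact r.Prime := ⟨hr⟩
  have h1 : r ∣ p ^ q - 1 := h.trans ph_dvd_sub
  have hpq : 1 ≤ p ^ q := Nat.one_le_pow _ _ (by omega)
  have h2 : (p : ZMod r) ^ q = 1 := by
    have h3 : ((p ^ q - 1 : ℕ) : ZMod r) = 0 := (ZMod.natCast_eq_zero_iff _ _).2 h1
    rw [Nat.cast_sub hpq, Nat.cast_pow, Nat.cast_one, sub_eq_zero] at h3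
    exact h3
  have hp0 : (p : ZMod r) ≠ 0 := by
    intro h0
    rw [h0, zero_pow hq.ne_zero] at h2
    exact zero_ne_one h2
  rcases (Nat.dvd_prime hq).1 (orderOf_dvd_of_pow_eq_one h2) with h3 | h3
  · left
    have h4 : (p : ZMod r) = 1 := orderOf_eq_one_iff.1 h3
    have h5 : r ∣ p - 1 := by
      rw [← ZMod.natCast_eq_zero_iff, Nat.cast_sub (by omega), Nat.cast_one, h4, sub_self]
    have h6 : ((ph q p : ℕ) : ZMod r) = (q : ZMod r) := by
      rw [ph_eq hp]
      push_cast
      rw [h4]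
      simp
    have h7 : r ∣ q := by
      rw [← ZMod.natCast_eq_zero_iff, ← h6]
      exact (ZMod.natCast_eq_zero_iff _ _).2 h
    have h8 : r = q := (Nat.prime_dvd_prime_iff_eq hr hq).1 h7
    exact ⟨h8, by rw [← h8]; exact h5⟩
  · right
    rw [← h3]
    exact ZMod.orderOf_dvd_card_sub_one hp0

/-- `q` divides `1 + p + .. + p^(q-1)` at most once -/
theorem once {p q : ℕ} (hp : 2 ≤ p) (hq : q.Prime) (h2 : q ≠ 2) (h : q ∣ p - 1) :
    ¬ q * q ∣ ph q p := by
  obtain ⟨t, ht⟩ := h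
  have hodd : Odd q := hq.odd_of_ne_two h2
  have h1 := odd_sq_dvd_geom_sum₂_sub (R := ℤ) (a := 1) (b := (t : ℤ)) hodd
  have hpt : (p : ℤ) = 1 + (q : ℤ) * t := by
    have : p = 1 + q * t := by omega
    exact_mod_cast this
  have h3 : (∑ i ∈ Finset.range q, ((1 : ℤ) + (q : ℤ) * t) ^ i * 1 ^ (q - 1 - i)) =
      ((ph q p : ℕ) : ℤ) := by
    rw [ph_eq hp]
    push_cast
    refine Finset.sum_congr rfl fun i _ => ?_
    rw [one_pow, mul_one, hpt]
  rw [h3, one_pow, mul_one] at h1
  intro h4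
  have h5 : (q : ℤ) ^ 2 ∣ ((ph q p : ℕ) : ℤ) := by
    rw [sq]
    exact_mod_cast h4
  have h6 : (q : ℤ) ^ 2 ∣ (q : ℤ) := by
    have h8 : (q : ℤ) = ((ph q p : ℕ) : ℤ) - (((ph q p : ℕ) : ℤ) - (q : ℤ)) := by ring
    rw [h8]
    exact dvd_sub (by rwa [← h8]) (by rwa [← h8])
  have h7 : q ^ 2 ∣ q := by exact_mod_cast h6
  have h8 := Nat.le_of_dvd hq.pos h7
  nlinarith [hq.two_le]

/-! ### large `q` -/

/-- no square of a prime `≤ BB` divides `p^q - 1` for a prime `q > 2100` -/
def BigOK (p : ℕ) : Prop := ∀ q, q.Prime → 2100 < q → ∀ r, r.Prime → r ≤ BB → q ∣ r - 1 →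
  r ∣ p ^ q - 1 → ¬ r ^ 2 ∣ p ^ q - 1

theorem pw237 : ∀ n, (2101 + n) * BB ^ 237 < 5 ^ (2100 + n) := by
  intro n
  induction n with
  | zero =>
    unfold BB
    decide +kernel
  | succ n ih =>
    have h1 : 0 < BB ^ 237 := pow_pos (by unfold BB; norm_num) _
    calc (2101 + (n + 1)) * BB ^ 237 ≤ 5 * ((2101 + n) * BB ^ 237) := by
          rw [← mul_assoc]
          exact Nat.mul_le_mul_right _ (by omega)
      _ < 5 * 5 ^ (2100 + n) := by omega
      _ = 5 ^ (2100 + (n + 1)) := by rw [← add_assoc, pow_succ, mul_comm]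

theorem big_not {p : ℕ} (hp : 5 ≤ p) (h : BigOK p) {q : ℕ} (hq : q.Prime) (hq2 : 2100 < q) :
    ¬ Sm (ph q p) := by
  intro hS
  have hN0 : ph q p ≠ 0 := by
    have h1 := ph_ge (p := p) (q := q) (by omega) (by omega)
    have h2 : 0 < p ^ (q - 1) := pow_pos (by omega) _
    omega
  have hsq : Squarefree (ph q p) := by
    rw [Nat.squarefree_iff_prime_squarefree]
    intro r hr hrr
    have hr1 : r ∣ ph q p := (dvd_mul_right r r).trans hrr
    rcases factor (by omega) hq hr hr1 with ⟨h1, h2⟩ | h1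
    · rw [h1] at hrr
      exact once (by omega) hq (by omega) h2 hrr
    · refine h q hq hq2 r hr (hS r hr hr1) h1 (hr1.trans ph_dvd_sub) ?_
      rw [sq]
      exact hrr.trans ph_dvd_sub
  have hprod := Nat.prod_primeFactors_of_squarefree hsq
  -- the number of the other prime factors
  have hcard : ((ph q p).primeFactors.erase q).card ≤ 237 := by
    have h1 : ((ph q p).primeFactors.erase q).card ≤ (Finset.Icc 1 237).card := by
      refine Finset.card_le_card_of_injOn (fun r => (r - 1) / (2 * q)) ?_ ?_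
      · intro r hr
        obtain ⟨hrq, hr1⟩ := Finset.mem_erase.1 hr
        have hrp := Nat.prime_of_mem_primeFactors hr1
        have hrd := Nat.dvd_of_mem_primeFactors hr1
        rcases factor (by omega) hq hrp hrd with ⟨h1, _⟩ | h1
        · exact absurd h1 hrq
        · have hB := hS r hrp hrd
          have hBB : BB = 1000000 := rfl
          rw [hBB] at hB
          have h2 : 2 ≤ r := hrp.two_le
          have h3 : q ≤ r - 1 := Nat.le_of_dvd (by omega) h1
          have h4 : r % 2 = 1 := hrp.eq_two_or_odd.resolve_left (by omega)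
          have h5 : 2 * q ∣ r - 1 := by
            refine Nat.Coprime.mul_dvd_of_dvd_of_dvd ?_ (by omega) h1
            exact (Nat.coprime_primes Nat.prime_two hq).2 (by omega)
          have h6 : 2 * q ≤ r - 1 := Nat.le_of_dvd (by omega) h5
          show (r - 1) / (2 * q) ∈ Finset.Icc 1 237
          rw [Finset.mem_Icc]
          constructor
          · exact (Nat.one_le_div_iff (by omega)).2 h6
          · rw [← Nat.lt_succ_iff, Nat.div_lt_iff_lt_mul (by omega)]
            omega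
      · intro r hr r' hr' hrr
        have key : ∀ r, r ∈ ((ph q p).primeFactors.erase q) → 2 * q ∣ r - 1 ∧ 2 ≤ r := by
          intro r hr
          obtain ⟨hrq, hr1⟩ := Finset.mem_erase.1 hr
          have hrp := Nat.prime_of_mem_primeFactors hr1
          have hrd := Nat.dvd_of_mem_primeFactors hr1
          rcases factor (by omega) hq hrp hrd with ⟨h1, _⟩ | h1
          · exact absurd h1 hrq
          · have h2 : 2 ≤ r := hrp.two_le
            have h3 : q ≤ r - 1 := Nat.le_of_dvd (by omega) h1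
            have h4 : r % 2 = 1 := hrp.eq_two_or_odd.resolve_left (by omega)
            refine ⟨Nat.Coprime.mul_dvd_of_dvd_of_dvd ?_ (by omega) h1, h2⟩
            exact (Nat.coprime_primes Nat.prime_two hq).2 (by omega)
        obtain ⟨h1, h2⟩ := key r (Finset.mem_coe.1 hr)
        obtain ⟨h3, h4⟩ := key r' (Finset.mem_coe.1 hr')
        have h5 : (r - 1) / (2 * q) = (r' - 1) / (2 * q) := hrr
        have h6 := Nat.div_mul_cancel h1
        have h7 := Nat.div_mul_cancel h3
        rw [h5] at h6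
        omega
    simpa using h1
  have hle : ph q p ≤ q * BB ^ 237 := by
    have h1 : ∏ r ∈ (ph q p).primeFactors.erase q, r ≤ BB ^ 237 := by
      calc ∏ r ∈ (ph q p).primeFactors.erase q, r
          ≤ BB ^ ((ph q p).primeFactors.erase q).card := by
            refine Finset.prod_le_pow_card _ _ _ fun r hr => ?_
            obtain ⟨_, hr1⟩ := Finset.mem_erase.1 hr
            exact hS r (Nat.prime_of_mem_primeFactors hr1) (Nat.dvd_of_mem_primeFactors hr1)
        _ ≤ BB ^ 237 := Nat.pow_le_pow_right (by unfold BB; norm_num) hcard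
    by_cases hmem : q ∈ (ph q p).primeFactors
    · calc ph q p = ∏ r ∈ (ph q p).primeFactors, r := hprod.symm
        _ = q * ∏ r ∈ (ph q p).primeFactors.erase q, r := (Finset.mul_prod_erase _ _ hmem).symm
        _ ≤ q * BB ^ 237 := Nat.mul_le_mul_left q h1
    · rw [Finset.erase_eq_of_notMem hmem, hprod] at h1
      exact h1.trans (Nat.le_mul_of_pos_left _ hq.pos)
  have h9 := ph_ge (p := p) (q := q) (by omega) (by omega)
  have h10 := pw237 (q - 2101)
  have e1 : 2101 + (q - 2101) = q := by omega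
  have e2 : 2100 + (q - 2101) = q - 1 := by omega
  rw [e1, e2] at h10
  have h11 : 5 ^ (q - 1) ≤ p ^ (q - 1) := Nat.pow_le_pow_left hp _
  omega

/-! ### small `q` -/

theorem dvd_pow_of {N A k : ℕ} (hN : N ≠ 0) (hk : N < 2 ^ k) (h : ∀ r, r.Prime → r ∣ N → r ∣ A) :
    N ∣ A ^ k := by
  rcases Nat.eq_zero_or_pos A with hA | hA
  · rw [hA]
    rcases Nat.eq_zero_or_pos k with h0 | h0
    · rw [h0, pow_zero] at hk
      omega
    · rw [zero_pow (by omega)]
      exact dvd_zero _
  · rw [← Nat.factorization_le_iff_dvd hN (pow_ne_zero _ (by omega))]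
    intro r
    by_cases hr : r.Prime ∧ r ∣ N
    · rw [Nat.factorization_pow]
      have h1 : N.factorization r ≤ k := by
        by_contra hlt
        have h2 : 2 ^ k ≤ r ^ N.factorization r :=
          (Nat.pow_le_pow_right (by norm_num) (by omega)).trans
            (Nat.pow_le_pow_left hr.1.two_le _)
        have h3 := Nat.le_of_dvd (by omega) (Nat.ordProj_dvd N r)
        omega
      have h4 : 1 ≤ A.factorization r :=
        (hr.1.dvd_iff_one_le_factorization (by omega)).1 (h r hr.1 hr.2)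
      show N.factorization r ≤ k * A.factorization r
      nlinarith
    · have h0 : N.factorization r = 0 := by
        by_cases h1 : r.Prime
        · exact Nat.factorization_eq_zero_of_not_dvd fun h2 => hr ⟨h1, h2⟩
        · exact Nat.factorization_eq_zero_of_not_prime _ h1
      rw [h0]
      exact Nat.zero_le _

theorem small_not {p q : ℕ} {L : List ℕ} (hp : 2 ≤ p) (hp2 : p < 2 ^ 18) (hq : q.Prime)
    (hq2 : q ≠ 2) (hq3 : q ≤ 2100) (hL : p ∈ L) (h : chq q L = true) : ¬ Sm (ph q p) := by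
  intro hS
  obtain ⟨P, h1, h2, h3⟩ := chq_sound hq.pos h hL
  apply h3
  have hN0 : ph q p ≠ 0 := by
    have h4 := ph_ge (p := p) (q := q) hp hq.one_le
    have h5 : 0 < p ^ (q - 1) := pow_pos (by omega) _
    omega
  have hlt : ph q p < 2 ^ 2 ^ 16 := by
    calc ph q p < p ^ q := ph_lt hp hq.one_le
      _ ≤ (2 ^ 18) ^ q := Nat.pow_le_pow_left hp2.le _
      _ = 2 ^ (18 * q) := (pow_mul 2 18 q).symm
      _ ≤ 2 ^ 2 ^ 16 := Nat.pow_le_pow_right (by norm_num) (by norm_num; omega)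
  refine dvd_pow_of hN0 hlt fun r hr hrN => ?_
  rcases factor hp hq hr hrN with ⟨h4, _⟩ | h4
  · rw [h4]
    exact h2
  · have hr2 : 2 ≤ r := hr.two_le
    have h5 : q ≤ r - 1 := Nat.le_of_dvd (by omega) h4
    have hqq : 3 ≤ q := by
      have := hq.two_le
      omega
    have h6 : r % 2 = 1 := hr.eq_two_or_odd.resolve_left (by omega)
    have h7 : 2 * q ∣ r - 1 := by
      refine Nat.Coprime.mul_dvd_of_dvd_of_dvd ?_ (by omega) h4
      exact (Nat.coprime_primes Nat.prime_two hq).2 (by omega)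
    obtain ⟨j, hj⟩ := h7
    have hB := hS r hr hrN
    have h8 : r = 2 * q * j + 1 := by omega
    rw [h8]
    exact h1 j (by omega)

/-- Fermat quotients -/
theorem bigOK_of {p : ℕ} {E : List ℕ} (hp : 2 ≤ p) (h : big p E 16 0 = true)
    (hE : ∀ r ∈ E, ∀ q, q.Prime → 2100 < q → q ∣ r - 1 → ¬ r ∣ p ^ q - 1) : BigOK p := by
  intro q hq hq2 r hr hrB hqr hrd hrr
  have hall : ∀ k, k < 65536 → lf p E k = true := fun k hk =>
    al_sound (lf p E) 16 0 h k (by rw [Nat.div_eq_zero_iff]; right; norm_num; exact hk)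
  have hr2 : 2 ≤ r := hr.two_le
  have h1 : q ≤ r - 1 := Nat.le_of_dvd (by omega) hqr
  have h2 : r % 2 = 1 := hr.eq_two_or_odd.resolve_left (by omega)
  have h3 : 2 * q ∣ r - 1 := by
    refine Nat.Coprime.mul_dvd_of_dvd_of_dvd ?_ (by omega) hqr
    exact (Nat.coprime_primes Nat.prime_two hq).2 (by omega)
  have h4 : 2 * q ≤ r - 1 := Nat.le_of_dvd (by omega) h3
  by_cases hmem : r ∈ E
  · exact hE r hmem q hq hq2 hqr hrd
  · refine lf_sound hall hr (by omega) hrB hmem ?_
    have h5 : p ^ q - 1 ∣ p ^ (r - 1) - 1 := by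
      obtain ⟨j, hj⟩ := hqr
      rw [hj, pow_mul]
      have := Nat.sub_dvd_pow_sub_pow (p ^ q) 1 j
      rwa [one_pow] at this
    have h6 : r ^ 2 ∣ p ^ (r - 1) - 1 := hrr.trans h5
    have h7 : 1 ≤ p ^ (r - 1) := Nat.one_le_pow _ _ (by omega)
    have h8 : p ^ (r - 1) ≡ 1 [MOD r ^ 2] := ((Nat.modEq_iff_dvd' h7).2 h6).symm
    have h9 : 1 < r ^ 2 := by nlinarith
    rw [Nat.ModEq, Nat.mod_eq_of_lt h9] at h8
    exact h8

end Pool.Agent.Lib.MP_c8748f_nt.LP
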