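import Pool.Agent.Lib.MP_c8748f_nt.LP.S2
import Pool.Agent.Lib.MP_c8748f_nt.LP.G1
import Pool.Agent.Lib.MP_c8748f_nt.LP.G2
import Pool.Agent.Lib.MP_c8748f_nt.LP.G3
import Pool.Agent.Lib.MP_c8748f_nt.LP.G4

/-!
# Friends of 10 (MP_c8748f_nt): the tree for prime factors up to one million
-/

set_option autoImplicit false

namespace Pool.Agent.Lib.MP_c8748f_nt.LP

/-! ### the list of primes is complete -/

/-- small divisors -/
def SD : List ℕ := [2, 3, 5, 7, 11, 13, 17, 19, 23, 29, 31, 37, 41, 43]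

set_option maxRecDepth 100000 in
theorem complete : ∀ n < 2101, (∃ d ∈ SD, n % d = 0 ∧ d < n) ∨ n < 8 ∨ n ∈ QQ := by
  decide +kernel

theorem chq_LL {q : ℕ} (hq : q.Prime) (h7 : 7 < q) (h : q ≤ 2100) : ch8 q LL = true := by
  rcases complete q (by omega) with ⟨d, hd, h1, h2⟩ | h1 | h1
  · exfalso
    have h3 : d ∣ q := Nat.dvd_of_mod_eq_zero h1
    rcases (Nat.dvd_prime hq).1 h3 with h4 | h4
    · rw [h4] at hd
      revert hd
      decide
    · omega
  · omega
  · exact cl8_mem _ _ cQ q h1

theorem LL_lt : ∀ p ∈ LL, 5 ≤ p ∧ p < 2 ^ 18 := by decide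

/-! ### the exceptions -/

/-- a prime divisor of a product of small numbers is small -/
theorem sm_mul {q a b : ℕ} (hq : q.Prime) (h : q ∣ a * b) (ha : a ≤ 2100) (ha0 : 0 < a)
    (h2 : 2100 < q) : q ∣ b := by
  rcases hq.dvd_mul.1 h with h1 | h1
  · have := Nat.le_of_dvd ha0 h1
    omega
  · exact h1

theorem ex_small {q : ℕ} (hq : q.Prime) (h2 : 2100 < q) (a b : ℕ) (ha : a ≤ 2100) (ha0 : 0 < a)
    (hb : b ≤ 2100) (hb0 : 0 < b) (h : q ∣ a * b) : False := by
  have h3 := Nat.le_of_dvd hb0 (sm_mul hq h ha ha0 h2)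
  omega

theorem ok_nil {p : ℕ} {L : List ℕ} (hp : 2 ≤ p) (h : al (lb L) 16 0 = true) (hL : p ∈ L)
    (hE : EE p = []) : BigOK p :=
  bigOK_of2 hp h hL fun r hr => absurd (hE ▸ hr : r ∈ []) List.not_mem_nil

theorem ok_5 : BigOK 5 := by
  refine bigOK_of2 (by norm_num) gL1 (by decide) fun r hr q hq h2 h => ?_
  exfalso
  rw [show EE 5 = [20771, 40487] from rfl] at hr
  simp only [List.mem_cons, List.not_mem_nil, or_false] at hr
  rcases hr with rfl | rfl
  · exact ex_small hq h2 310 67 (by norm_num) (by norm_num) (by norm_num) (by norm_num)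
      (by norm_num at h ⊢; exact h)
  · exact ex_small hq h2 62 653 (by norm_num) (by norm_num) (by norm_num) (by norm_num)
      (by norm_num at h ⊢; exact h)

theorem ok_31 : BigOK 31 := by
  refine bigOK_of2 (by norm_num) gL1 (by decide) fun r hr q hq h2 h => ?_
  exfalso
  rw [show EE 31 = [6451] from rfl] at hr
  simp only [List.mem_cons, List.not_mem_nil, or_false] at hr
  subst hr
  exact ex_small hq h2 150 43 (by norm_num) (by norm_num) (by norm_num) (by norm_num)
      (by norm_num at h ⊢; exact h)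

theorem ok_21787 : BigOK 21787 := by
  refine bigOK_of2 (by norm_num) gL4 (by decide) fun r hr q hq h2 h => ?_
  exfalso
  rw [show EE 21787 = [100937] from rfl] at hr
  simp only [List.mem_cons, List.not_mem_nil, or_false] at hr
  subst hr
  exact ex_small hq h2 88 1147 (by norm_num) (by norm_num) (by norm_num) (by norm_num)
      (by norm_num at h ⊢; exact h)

theorem not_dvd_of {r p q x : ℕ} (hp : 0 < p) (hx : p ^ q % r = x) (h1 : x ≠ 1) (h2 : 1 < r) :
    ¬ r ∣ p ^ q - 1 := by
  intro h
  have h7 : 1 ≤ p ^ q := Nat.one_le_pow _ _ hp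
  have h8 : p ^ q ≡ 1 [MOD r] := ((Nat.modEq_iff_dvd' h7).2 h).symm
  rw [Nat.ModEq, Nat.mod_eq_of_lt h2, hx] at h8
  exact h1 h8

theorem ok_2221 : BigOK 2221 := by
  refine bigOK_of2 (by norm_num) gL2 (by decide) fun r hr q hq h2 h => ?_
  rw [show EE 2221 = [7481, 101489] from rfl] at hr
  simp only [List.mem_cons, List.not_mem_nil, or_false] at hr
  rcases hr with rfl | rfl
  · exfalso
    exact ex_small hq h2 40 187 (by norm_num) (by norm_num) (by norm_num) (by norm_num)
      (by norm_num at h ⊢; exact h)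
  · have h3 : q ∣ 6343 := sm_mul hq (a := 16) (b := 6343) (by norm_num at h ⊢; exact h)
      (by norm_num) (by norm_num) h2
    have h4 : q = 6343 := (Nat.prime_dvd_prime_iff_eq hq (by norm_num)).1 h3
    rw [h4]
    have h5 : 2221 ^ 6343 % 101489 ≠ 1 := by decide +kernel
    exact not_dvd_of (by norm_num) rfl h5 (by norm_num)

theorem ok_5113 : BigOK 5113 := by
  refine bigOK_of2 (by norm_num) gL2 (by decide) fun r hr q hq h2 h => ?_
  rw [show EE 5113 = [22147] from rfl] at hr
  simp only [List.mem_cons, List.not_mem_nil, or_false] at hr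
  subst hr
  have h3 : q ∣ 3691 := sm_mul hq (a := 6) (b := 3691) (by norm_num at h ⊢; exact h)
    (by norm_num) (by norm_num) h2
  have h4 : q = 3691 := (Nat.prime_dvd_prime_iff_eq hq (by norm_num)).1 h3
  rw [h4]
  have h5 : 5113 ^ 3691 % 22147 ≠ 1 := by decide +kernel
  exact not_dvd_of (by norm_num) rfl h5 (by norm_num)

theorem ok_7879 : BigOK 7879 := by
  refine bigOK_of2 (by norm_num) gL3 (by decide) fun r hr q hq h2 h => ?_
  rw [show EE 7879 = [127679] from rfl] at hr
  simp only [List.mem_cons, List.not_mem_nil, or_false] at hr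
  subst hr
  have h3 : q ∣ 63839 := sm_mul hq (a := 2) (b := 63839) (by norm_num at h ⊢; exact h)
    (by norm_num) (by norm_num) h2
  have h4 : q = 63839 := (Nat.prime_dvd_prime_iff_eq hq (by norm_num)).1 h3
  rw [h4]
  have h5 : 7879 ^ 63839 % 127679 ≠ 1 := by decide +kernel
  exact not_dvd_of (by norm_num) rfl h5 (by norm_num)

theorem ok_LL : ∀ p ∈ LL, BigOK p := by
  intro p hp
  simp only [LL, List.mem_cons, List.not_mem_nil, or_false] at hp
  rcases hp with rfl | rfl | rfl | rfl | rfl | rfl | rfl | rfl | rfl | rfl | rfl | rfl | rfl | rfl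
  · exact ok_5
  · exact ok_31
  · exact ok_nil (by norm_num) gL1 (by decide) rfl
  · exact ok_nil (by norm_num) gL1 (by decide) rfl
  · exact ok_nil (by norm_num) gL2 (by decide) rfl
  · exact ok_2221
  · exact ok_5113
  · exact ok_nil (by norm_num) gL2 (by decide) rfl
  · exact ok_7879
  · exact ok_nil (by norm_num) gL3 (by decide) rfl
  · exact ok_nil (by norm_num) gL3 (by decide) rfl
  · exact ok_21787
  · exact ok_nil (by norm_num) gL4 (by decide) rfl
  · exact ok_nil (by norm_num) gL4 (by decide) rfl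

/-! ### one prime -/

/-- the exponents of a prime of the tree -/
theorem not_gt7 {p q : ℕ} (hp : p ∈ LL) (hq : q.Prime) (h7 : 7 < q) : ¬ Sm (ph q p) := by
  obtain ⟨h1, h2⟩ := LL_lt p hp
  rcases Nat.lt_or_ge 2100 q with h | h
  · exact big_not h1 (ok_LL p hp) hq h
  · exact small_not2 (by omega) h2 hq (by omega) h hp (chq_LL hq h7 h)

theorem sevens : ∀ p ∈ LL, p = 5 ∨
    p ∈ [31, 71, 331, 1201, 2221, 5113, 5233, 7879, 17351, 19531, 21787, 37861, 235003] := by
  decide

theorem le7 {p q : ℕ} (hp : p ∈ LL) (hq : q.Prime) (h2 : q ≠ 2) (h : Sm (ph q p)) :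
    q = 3 ∨ q = 5 ∨ (q = 7 ∧ p = 5) := by
  have h1 : q ≤ 7 := by
    by_contra h7
    exact not_gt7 hp hq (by omega) h
  have h3 : 2 ≤ q := hq.two_le
  have h4 : q ≠ 4 := by
    rintro rfl
    exact absurd hq (by norm_num)
  have h6 : q ≠ 6 := by
    rintro rfl
    exact absurd hq (by norm_num)
  have h7 : q = 3 ∨ q = 5 ∨ q = 7 := by omega
  rcases h7 with h7 | h7 | h7
  · exact Or.inl h7
  · exact Or.inr (Or.inl h7)
  · refine Or.inr (Or.inr ⟨h7, ?_⟩)
    rcases sevens p hp with h8 | h8
    · exact h8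
    · exfalso
      rw [h7] at h
      exact small_not2 (by have := LL_lt p hp; omega) (LL_lt p hp).2 (by norm_num) (by norm_num)
        (by norm_num) h8 c7' h

/-! ### the tree -/

/-- the exponents are even -/
theorem even_exponent {m p : ℕ} (hf : Fr m) (hp : p ∈ m.primeFactors) :
    m.factorization p % 2 = 0 := by
  have hpp := Nat.prime_of_mem_primeFactors hp
  by_contra hodd
  have h1 : 2 ∣ m.factorization p + 1 := by omega
  have h2 := (ph_dvd hpp h1).trans (sg_dvd_of_mem hf.pos hp)
  rw [ph_eq hpp.two_le] at h2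
  simp only [Finset.sum_range_succ, Finset.range_zero, Finset.sum_empty, pow_zero, pow_one,
    zero_add] at h2
  have h3 : p ≠ 2 := by
    rintro rfl
    exact hf.odd (Nat.dvd_of_mem_primeFactors hp)
  have h4 : p % 2 = 1 := hpp.eq_two_or_odd.resolve_left h3
  exact hf.sg_odd ((by omega : 2 ∣ 1 + p).trans h2)

theorem key {m p : ℕ} (hf : Fr m) (hS : ∀ r, r.Prime → r ∣ m → r ≤ BB)
    (hp : p ∈ m.primeFactors) :
    ∃ q, q.Prime ∧ q ≠ 2 ∧ q ∣ m.factorization p + 1 ∧ Sm (ph q p) := by
  have hpp := Nat.prime_of_mem_primeFactors hp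
  have h1 := even_exponent hf hp
  obtain ⟨q, hq, hqd⟩ := Nat.exists_prime_and_dvd (n := m.factorization p + 1)
    (by have := hf.two_le hp; omega)
  refine ⟨q, hq, ?_, hqd, ?_⟩
  · rintro rfl
    omega
  · intro r hr hrd
    have h2 : r ∣ sg m := hrd.trans ((ph_dvd hpp hqd).trans (sg_dvd_of_mem hf.pos hp))
    by_cases h3 : r = 3
    · rw [h3]
      unfold BB
      norm_num
    · exact hS r hr (Nat.dvd_of_mem_primeFactors (hf.mem_of_dvd hr h3 h2))

/-- one step of the tree -/
theorem node {m p : ℕ} (hf : Fr m) (hS : ∀ r, r.Prime → r ∣ m → r ≤ BB) (hL : p ∈ LL)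
    (hp : p ∈ m.primeFactors) :
    (3 ∣ m.factorization p + 1 ∧ Sm (ph 3 p)) ∨ (5 ∣ m.factorization p + 1 ∧ Sm (ph 5 p)) ∨
    (7 ∣ m.factorization p + 1 ∧ p = 5) := by
  obtain ⟨q, hq, h2, h3, h4⟩ := key hf hS hp
  rcases le7 hL hq h2 h4 with h5 | h5 | ⟨h5, h6⟩
  · rw [h5] at h3 h4
    exact Or.inl ⟨h3, h4⟩
  · rw [h5] at h3 h4
    exact Or.inr (Or.inl ⟨h3, h4⟩)
  · rw [h5] at h3
    exact Or.inr (Or.inr ⟨h3, h6⟩)

/-- `5` is excluded -/
theorem no5 {p : ℕ} (hp : p ∈ [1201, 2221, 5113, 5233, 7879, 17351, 19531, 21787, 37861, 235003]) :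
    ¬ Sm (ph 5 p) := by
  have h1 : ∀ p ∈ [1201, 2221, 5113, 5233, 7879, 17351, 19531, 21787, 37861, 235003],
      2 ≤ p ∧ p < 2 ^ 18 := by decide
  exact small_not2 (h1 p hp).1 (h1 p hp).2 (by norm_num) (by norm_num) (by norm_num) hp c5'

/-- `3` is excluded -/
theorem no3 {p : ℕ} (hp : p ∈ [5113, 19531, 21787]) : ¬ Sm (ph 3 p) := by
  have h1 : ∀ p ∈ [5113, 19531, 21787], 2 ≤ p ∧ p < 2 ^ 18 := by decide
  exact small_not2 (h1 p hp).1 (h1 p hp).2 (by norm_num) (by norm_num) (by norm_num) hp c3'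

theorem down {m p q r : ℕ} (hf : Fr m) (hp : p ∈ m.primeFactors) (hq : q ∣ m.factorization p + 1)
    (hr : r.Prime) (h3 : r ≠ 3) (h : r ∣ ph q p) : r ∈ m.primeFactors :=
  hf.mem_of_dvd hr h3 (h.trans ((ph_dvd (Nat.prime_of_mem_primeFactors hp) hq).trans
    (sg_dvd_of_mem hf.pos hp)))

/-- three primes with a factor `3` -/
theorem threes {m a b c : ℕ} (hf : Fr m) (ha : a ∈ m.primeFactors) (hb : b ∈ m.primeFactors)
    (hc : c ∈ m.primeFactors) (hab : a ≠ b) (hac : a ≠ c) (hbc : b ≠ c)
    (h1 : 3 ∣ m.factorization a + 1) (h2 : 3 ∣ m.factorization b + 1)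
    (h3 : 3 ∣ m.factorization c + 1) (e1 : 3 ∣ ph 3 a) (e2 : 3 ∣ ph 3 b) (e3 : 3 ∣ ph 3 c) :
    False := by
  have d1 := (dv_empty m).step ha (by simp)
    (e1.trans (ph_dvd (Nat.prime_of_mem_primeFactors ha) h1))
  have d2 := d1.step hb (by simp [Ne.symm hab])
    (e2.trans (ph_dvd (Nat.prime_of_mem_primeFactors hb) h2))
  have d3 := d2.step hc (by simp [Ne.symm hac, Ne.symm hbc])
    (e3.trans (ph_dvd (Nat.prime_of_mem_primeFactors hc) h3))
  have d4 := d3.dvd hf.pos
  norm_num at d4
  exact hf.twentyseven d4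

theorem main {m : ℕ} (hf : Fr m) (hS : ∀ r, r.Prime → r ∣ m → r ≤ BB) : False := by
  have m5 := hf.five_mem
  rcases node hf hS (by decide) m5 with ⟨h5, _⟩ | ⟨h5, _⟩ | ⟨h5, _⟩
  · -- 31
    have m31 : 31 ∈ m.primeFactors := down hf m5 h5 (by norm_num) (by norm_num) (by decide +kernel)
    rcases node hf hS (by decide) m31 with ⟨h31, _⟩ | ⟨h31, _⟩ | ⟨_, h⟩
    · have m331 : 331 ∈ m.primeFactors :=
        down hf m31 h31 (by norm_num) (by norm_num) (by decide +kernel)
      rcases node hf hS (by decide) m331 with ⟨h331, _⟩ | ⟨h331, _⟩ | ⟨_, h⟩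
      · have m5233 : 5233 ∈ m.primeFactors :=
          down hf m331 h331 (by norm_num) (by norm_num) (by decide +kernel)
        rcases node hf hS (by decide) m5233 with ⟨h5233, _⟩ | ⟨_, h⟩ | ⟨_, h⟩
        · exact threes hf m31 m331 m5233 (by norm_num) (by norm_num) (by norm_num) h31 h331 h5233
            (by decide +kernel) (by decide +kernel) (by decide +kernel)
        · exact no5 (by decide) h
        · exact absurd h (by norm_num)
      · have m37861 : 37861 ∈ m.primeFactors :=
          down hf m331 h331 (by norm_num) (by norm_num) (by decide +kernel)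
        rcases node hf hS (by decide) m37861 with ⟨h37861, _⟩ | ⟨_, h⟩ | ⟨_, h⟩
        · have m1201 : 1201 ∈ m.primeFactors :=
            down hf m37861 h37861 (by norm_num) (by norm_num) (by decide +kernel)
          rcases node hf hS (by decide) m1201 with ⟨h1201, _⟩ | ⟨_, h⟩ | ⟨_, h⟩
          · exact threes hf m31 m37861 m1201 (by norm_num) (by norm_num) (by norm_num) h31 h37861
              h1201 (by decide +kernel) (by decide +kernel) (by decide +kernel)
          · exact no5 (by decide) h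
          · exact absurd h (by norm_num)
        · exact no5 (by decide) h
        · exact absurd h (by norm_num)
      · exact absurd h (by norm_num)
    · have m17351 : 17351 ∈ m.primeFactors :=
        down hf m31 h31 (by norm_num) (by norm_num) (by decide +kernel)
      rcases node hf hS (by decide) m17351 with ⟨h17351, _⟩ | ⟨_, h⟩ | ⟨_, h⟩
      · have m21787 : 21787 ∈ m.primeFactors :=
          down hf m17351 h17351 (by norm_num) (by norm_num) (by decide +kernel)
        rcases node hf hS (by decide) m21787 with ⟨_, h⟩ | ⟨_, h⟩ | ⟨_, h⟩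
        · exact no3 (by decide) h
        · exact no5 (by decide) h
        · exact absurd h (by norm_num)
      · exact no5 (by decide) h
      · exact absurd h (by norm_num)
    · exact absurd h (by norm_num)
  · -- 71
    have m71 : 71 ∈ m.primeFactors := down hf m5 h5 (by norm_num) (by norm_num) (by decide +kernel)
    rcases node hf hS (by decide) m71 with ⟨h71, _⟩ | ⟨h71, _⟩ | ⟨_, h⟩
    · have m5113 : 5113 ∈ m.primeFactors :=
        down hf m71 h71 (by norm_num) (by norm_num) (by decide +kernel)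
      rcases node hf hS (by decide) m5113 with ⟨_, h⟩ | ⟨_, h⟩ | ⟨_, h⟩
      · exact no3 (by decide) h
      · exact no5 (by decide) h
      · exact absurd h (by norm_num)
    · have m2221 : 2221 ∈ m.primeFactors :=
        down hf m71 h71 (by norm_num) (by norm_num) (by decide +kernel)
      rcases node hf hS (by decide) m2221 with ⟨h2221, _⟩ | ⟨_, h⟩ | ⟨_, h⟩
      · have m235003 : 235003 ∈ m.primeFactors :=
          down hf m2221 h2221 (by norm_num) (by norm_num) (by decide +kernel)
        rcases node hf hS (by decide) m235003 with ⟨h235003, _⟩ | ⟨_, h⟩ | ⟨_, h⟩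
        · have m7879 : 7879 ∈ m.primeFactors :=
            down hf m235003 h235003 (by norm_num) (by norm_num) (by decide +kernel)
          rcases node hf hS (by decide) m7879 with ⟨h7879, _⟩ | ⟨_, h⟩ | ⟨_, h⟩
          · exact threes hf m2221 m235003 m7879 (by norm_num) (by norm_num) (by norm_num) h2221
              h235003 h7879 (by decide +kernel) (by decide +kernel) (by decide +kernel)
          · exact no5 (by decide) h
          · exact absurd h (by norm_num)
        · exact no5 (by decide) h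
        · exact absurd h (by norm_num)
      · exact no5 (by decide) h
      · exact absurd h (by norm_num)
    · exact absurd h (by norm_num)
  · -- 19531
    have m19531 : 19531 ∈ m.primeFactors :=
      down hf m5 h5 (by norm_num) (by norm_num) (by decide +kernel)
    rcases node hf hS (by decide) m19531 with ⟨_, h⟩ | ⟨_, h⟩ | ⟨_, h⟩
    · exact no3 (by decide) h
    · exact no5 (by decide) h
    · exact absurd h (by norm_num)

end Pool.Agent.Lib.MP_c8748f_nt.LP
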